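import Pool.Agent.Helper43_LSA.Stmts

/-!
# Module CLOS: the closure
-/

namespace Helper76.LSA

open Helper43.LSA Classical
open scoped ENNReal

noncomputable section

variable {V : Type} [Fintype V]

/-- partial families of large pieces -/
def PF (G : SimpleGraph V) (D b : ℕ) (X : V → ℕ) (A T : Finset V) : Prop :=
  ∃ (W : Finset V) (Gp : V → Finset V), Pieces G A T W Gp ∧ (∀ w ∈ W, D ≤ 8 * (Gp w).card) ∧
    ∀ t ∈ T, b ≤ X t

theorem edist_le_one_of_mem_cn {G : SimpleGraph V} {v t : V} (h : t ∈ cn G v) :
    G.edist v t ≤ 1 := by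
  rcases mem_cn.1 h with rfl | h
  · simp
  · rw [(SimpleGraph.edist_eq_one_iff_adj).2 h]

theorem Rooted.mono' {Γ : V → V → Prop} {A W W' : Finset V} (h : W ⊆ W') {r w : V}
    (hr : Relation.ReflTransGen (fun a b => Γ a b ∧ b ∈ W) r w) :
    Relation.ReflTransGen (fun a b => Γ a b ∧ b ∈ W') r w := by
  induction hr with
  | refl => exact Relation.ReflTransGen.refl
  | tail _ h2 ih => exact ih.tail ⟨h2.1, h h2.2⟩

theorem PF_extend {G : SimpleGraph V} {D b : ℕ} {X : V → ℕ} {A T W : Finset V} {Gp : V → Finset V}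
    (hP : Pieces G A T W Gp) (hD : ∀ w ∈ W, D ≤ 8 * (Gp w).card) (hX : ∀ t ∈ T, b ≤ X t)
    {w : V} {F : Finset V} (hF : F.Nonempty) (hFw : F ⊆ cn G w) (hFX : ∀ t ∈ F, b ≤ X t)
    (hFT : Disjoint F T) (hFD : D ≤ 8 * F.card)
    (hw : w ∈ W ∨ w ∈ A ∨ ∃ w' ∈ W, Near G 4 w' w) : PF G D b X A (T ∪ F) := by
  have hFG : ∀ w' ∈ W, Disjoint (Gp w') F := by
    intro w' hw'
    refine Finset.disjoint_left.2 fun x hx hx' => ?_
    refine Finset.disjoint_left.1 hFT hx' ?_
    rw [← hP.union]
    exact Finset.mem_biUnion.2 ⟨w', hw', hx⟩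
  have hX' : ∀ t ∈ T ∪ F, b ≤ X t := by
    intro t ht
    rcases Finset.mem_union.1 ht with h | h
    · exact hX t h
    · exact hFX t h
  by_cases hwW : w ∈ W
  · let Gp' : V → Finset V := fun v => if v = w then Gp w ∪ F else Gp v
    have e1 : Gp' w = Gp w ∪ F := by simp [Gp']
    have e2 : ∀ v, v ≠ w → Gp' v = Gp v := fun v hv => by simp [Gp', hv]
    refine ⟨W, Gp', ⟨hP.rooted, ?_, ?_, ?_, ?_⟩, ?_, hX'⟩
    · intro v hv
      by_cases h : v = w
      · subst h
        rw [e1]
        exact Finset.union_subset (hP.sub v hv) hFw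
      · rw [e2 v h]
        exact hP.sub v hv
    · intro v hv
      by_cases h : v = w
      · subst h
        rw [e1]
        exact hF.mono Finset.subset_union_right
      · rw [e2 v h]
        exact hP.ne v hv
    · intro u hu v hv huv
      have hd := hP.disj hu hv huv
      rw [Function.onFun] at hd ⊢
      by_cases h : u = w
      · subst h
        rw [e1, e2 v huv.symm]
        exact Finset.disjoint_union_left.2 ⟨hd, (hFG v hv).symm⟩
      · by_cases h' : v = w
        · subst h'
          rw [e1, e2 u h]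
          exact Finset.disjoint_union_right.2 ⟨hd, hFG u hu⟩
        · rw [e2 u h, e2 v h']
          exact hd
    · rw [← hP.union]
      ext x
      simp only [Finset.mem_biUnion, Finset.mem_union]
      constructor
      · rintro ⟨v, hv, hx⟩
        by_cases h : v = w
        · subst h
          rw [e1, Finset.mem_union] at hx
          rcases hx with hx | hx
          · exact Or.inl ⟨v, hv, hx⟩
          · exact Or.inr hx
        · rw [e2 v h] at hx
          exact Or.inl ⟨v, hv, hx⟩
      · rintro (⟨v, hv, hx⟩ | hx)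
        · refine ⟨v, hv, ?_⟩
          by_cases h : v = w
          · subst h
            rw [e1]
            exact Finset.mem_union_left _ hx
          · rw [e2 v h]
            exact hx
        · exact ⟨w, hwW, by rw [e1]; exact Finset.mem_union_right _ hx⟩
    · intro v hv
      by_cases h : v = w
      · subst h
        rw [e1]
        exact (hD v hv).trans (Nat.mul_le_mul_left 8 (Finset.card_le_card Finset.subset_union_left))
      · rw [e2 v h]
        exact hD v hv
  · let Gp' : V → Finset V := fun v => if v = w then F else Gp v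
    have e1 : Gp' w = F := by simp [Gp']
    have e2 : ∀ v ∈ W, Gp' v = Gp v := fun v hv => by
      have : v ≠ w := fun h => hwW (h ▸ hv)
      simp [Gp', this]
    have hsub : W ⊆ insert w W := Finset.subset_insert _ _
    refine ⟨insert w W, Gp', ⟨?_, ?_, ?_, ?_, ?_⟩, ?_, hX'⟩
    · intro v hv
      rcases Finset.mem_insert.1 hv with rfl | hv
      · rcases hw with h | h | ⟨w', hw', hn⟩
        · exact absurd h hwW
        · exact ⟨v, h, Finset.mem_insert_self _ _, Relation.ReflTransGen.refl⟩
        · obtain ⟨r, h1, h2, h3⟩ := hP.rooted w' hw'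
          exact ⟨r, h1, hsub h2, (Rooted.mono' (A := A) hsub h3).tail
            ⟨hn, Finset.mem_insert_self _ _⟩⟩
      · obtain ⟨r, h1, h2, h3⟩ := hP.rooted v hv
        exact ⟨r, h1, hsub h2, Rooted.mono' (A := A) hsub h3⟩
    · intro v hv
      rcases Finset.mem_insert.1 hv with rfl | hv
      · rw [e1]; exact hFw
      · rw [e2 v hv]; exact hP.sub v hv
    · intro v hv
      rcases Finset.mem_insert.1 hv with rfl | hv
      · rw [e1]; exact hF
      · rw [e2 v hv]; exact hP.ne v hv
    · intro u hu v hv huv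
      rw [Finset.mem_coe, Finset.mem_insert] at hu hv
      rw [Function.onFun]
      rcases hu with rfl | hu
      · rcases hv with rfl | hv
        · exact absurd rfl huv
        · rw [e1, e2 v hv]
          exact (hFG v hv).symm
      · rcases hv with rfl | hv
        · rw [e1, e2 u hu]
          exact hFG u hu
        · rw [e2 u hu, e2 v hv]
          exact hP.disj hu hv huv
    · rw [Finset.biUnion_insert, e1, ← hP.union, Finset.union_comm]
      congr 1
      exact Finset.biUnion_congr rfl e2
    · intro v hv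
      rcases Finset.mem_insert.1 hv with rfl | hv
      · rw [e1]; exact hFD
      · rw [e2 v hv]; exact hD v hv

theorem clos : ClosStmt := by
  intro V _ G D hG X hX b A
  -- a maximal partial family
  have hempty : PF G D b X A ∅ := by
    refine ⟨∅, fun _ => ∅, ⟨?_, ?_, ?_, ?_, ?_⟩, ?_, ?_⟩
    · intro w hw; simp at hw
    · intro w hw; simp at hw
    · intro w hw; simp at hw
    · intro w hw; simp at hw
    · simp
    · intro w hw; simp at hw
    · intro w hw; simp at hw
  obtain ⟨T, hT, hmax⟩ := Finset.exists_max_image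
    (Finset.univ.filter fun T : Finset V => PF G D b X A T) (fun T => T.card)
    ⟨∅, Finset.mem_filter.2 ⟨Finset.mem_univ _, hempty⟩⟩
  obtain ⟨W, Gp, hP, hD, hTX⟩ := (Finset.mem_filter.1 hT).2
  have hno : ∀ (w : V) (F : Finset V), F.Nonempty → F ⊆ cn G w → (∀ t ∈ F, b ≤ X t) →
      Disjoint F T → D ≤ 8 * F.card → (w ∈ W ∨ w ∈ A ∨ ∃ w' ∈ W, Near G 4 w' w) → False := by
    intro w F h1 h2 h3 h4 h5 h6
    have h7 := PF_extend hP hD hTX h1 h2 h3 h4 h5 h6
    have h8 := hmax (T ∪ F) (Finset.mem_filter.2 ⟨Finset.mem_univ _, h7⟩)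
    rw [Finset.card_union_of_disjoint h4.symm] at h8
    have := Finset.card_pos.2 h1
    omega
  refine ⟨T, W, Gp, hP, hD, hTX, ?_, ?_⟩
  · rintro w ⟨t, ht, htw⟩
    by_contra hcon
    push Not at hcon
    obtain ⟨h1, h2⟩ := hcon
    have ht' := ht
    rw [← hP.union] at ht'
    obtain ⟨w', hw', htw'⟩ := Finset.mem_biUnion.1 ht'
    refine hno w ((nbr G w ∩ hiSet X b) \ T) h1 ?_ ?_
      Finset.sdiff_disjoint h2 ?_
    · exact (Finset.sdiff_subset.trans Finset.inter_subset_left).trans (nbr_subset_cn G w)
    · intro x hx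
      have := (Finset.mem_inter.1 (Finset.mem_sdiff.1 hx).1).2
      simpa [hiSet] using this
    · by_cases hww : w' = w
      · subst hww
        exact Or.inl hw'
      · refine Or.inr (Or.inr ⟨w', hw', hww, ?_⟩)
        have h3 : G.edist w' w ≤ G.edist w' t + G.edist t w := SimpleGraph.edist_triangle
        refine h3.trans ?_
        have h4 := edist_le_one_of_mem_cn (hP.sub w' hw' htw')
        calc G.edist w' t + G.edist t w ≤ 1 + 3 := add_le_add h4 htw
          _ = 4 := by norm_num
  · intro z hz
    obtain ⟨hzA, hzX⟩ := Finset.mem_filter.1 hz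
    by_contra hcon
    simp only [BdSet, Finset.mem_filter, Finset.mem_univ, true_and, not_or, not_lt] at hcon
    obtain ⟨h1, h2⟩ := hcon
    refine hno z (cn G z \ T) (Finset.nonempty_iff_ne_empty.2 h1) Finset.sdiff_subset ?_
      Finset.sdiff_disjoint (by omega) (Or.inr (Or.inl hzA))
    intro x hx
    rcases mem_cn.1 (Finset.mem_sdiff.1 hx).1 with rfl | h
    · omega
    · have := hX z x h
      omega

end

end Helper76.LSA
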