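import Pool.Agent.Helper43_LSA.Stmts

/-!
# Module GEO: balls, degrees
-/

namespace Helper76.LSA

open Helper43.LSA Classical
open scoped ENNReal

noncomputable section

variable {V : Type} [Fintype V]

theorem ball_zero (G : SimpleGraph V) (u : V) : ball G u 0 = {u} := by
  ext v
  rw [mem_ball, Finset.mem_singleton, Nat.cast_zero, nonpos_iff_eq_zero,
    SimpleGraph.edist_eq_zero_iff, eq_comm]

theorem ball_succ (G : SimpleGraph V) (u : V) (r : ℕ) :
    ball G u (r + 1) = cns G (ball G u r) := by
  ext v
  rw [mem_ball]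
  simp only [cns, Finset.mem_biUnion, mem_ball, mem_cn]
  constructor
  · intro h
    have hne : G.edist v u ≠ ⊤ := by
      rw [SimpleGraph.edist_comm]
      exact ne_top_of_le_ne_top (ENat.natCast_ne_top (r + 1)) h
    obtain ⟨p, hp⟩ := SimpleGraph.exists_walk_of_edist_ne_top hne
    rw [SimpleGraph.edist_comm, ← hp] at h
    have hlen : p.length ≤ r + 1 := by exact_mod_cast h
    cases p with
    | nil => exact ⟨u, by simp, Or.inl rfl⟩
    | cons hadj q =>
      rename_i w
      refine ⟨w, ?_, Or.inr hadj.symm⟩
      rw [SimpleGraph.edist_comm]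
      refine (SimpleGraph.Walk.edist_le q).trans ?_
      simp only [SimpleGraph.Walk.length_cons] at hlen
      have : q.length ≤ r := by omega
      exact_mod_cast this
  · rintro ⟨w, hw, h | h⟩
    · subst h
      exact hw.trans (by exact_mod_cast Nat.le_succ r)
    · have h1 : G.edist u v ≤ G.edist u w + G.edist w v := SimpleGraph.edist_triangle
      rw [SimpleGraph.edist_eq_one_iff_adj.2 h] at h1
      refine h1.trans ?_
      push_cast
      exact add_le_add_left hw 1

theorem mem_cns' {G : SimpleGraph V} {A : Finset V} {w : V} :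
    w ∈ cns G A ↔ ∃ v ∈ A, w ∈ cn G v := by simp [cns]

theorem ball_add (G : SimpleGraph V) (u : V) (r s : ℕ) :
    ball G u (r + s) = (ball G u r).biUnion fun v => ball G v s := by
  induction s with
  | zero =>
    ext v
    simp [ball_zero]
  | succ s ih =>
    rw [← Nat.add_assoc, ball_succ, ih]
    ext v
    simp only [mem_cns', Finset.mem_biUnion, ball_succ]
    constructor
    · rintro ⟨w, ⟨x, hx, hw⟩, hv⟩
      exact ⟨x, hx, w, hw, hv⟩
    · rintro ⟨x, hx, w, hw, hv⟩
      exact ⟨w, ⟨x, hx, hw⟩, hv⟩

theorem ball_comm (G : SimpleGraph V) (u v : V) (r : ℕ) : v ∈ ball G u r ↔ u ∈ ball G v r := by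
  rw [mem_ball, mem_ball, SimpleGraph.edist_comm]

theorem card_ball_le {G : SimpleGraph V} {D : ℕ} (hG : Reg G D) (v : V) (r : ℕ) :
    (ball G v r).card ≤ (D + 1) ^ r := by
  induction r with
  | zero => rw [ball_zero]; simp
  | succ r ih =>
    rw [ball_succ]
    calc (cns G (ball G v r)).card ≤ ∑ w ∈ ball G v r, (cn G w).card := Finset.card_biUnion_le
      _ = (ball G v r).card * (D + 1) := by
          rw [Finset.sum_congr rfl fun w _ => card_cn hG w, Finset.sum_const, smul_eq_mul]
      _ ≤ (D + 1) ^ r * (D + 1) := Nat.mul_le_mul_right _ ih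
      _ = (D + 1) ^ (r + 1) := (pow_succ _ _).symm

theorem image_nbr {G : SimpleGraph V} (φ : G ≃g G) (v : V) :
    (nbr G v).image φ = nbr G (φ v) := by
  ext w
  simp only [Finset.mem_image, mem_nbr]
  constructor
  · rintro ⟨x, hx, rfl⟩
    exact φ.map_adj_iff.2 hx
  · intro h
    refine ⟨φ.symm w, ?_, φ.apply_symm_apply w⟩
    rw [← φ.map_adj_iff, φ.apply_symm_apply]
    exact h

theorem image_cn {G : SimpleGraph V} (φ : G ≃g G) (v : V) :
    (cn G v).image φ = cn G (φ v) := by
  rw [cn_eq, cn_eq, Finset.image_insert, image_nbr]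

theorem image_ball {G : SimpleGraph V} (φ : G ≃g G) (v : V) (r : ℕ) :
    (ball G v r).image φ = ball G (φ v) r := by
  induction r with
  | zero => rw [ball_zero, ball_zero, Finset.image_singleton]
  | succ r ih =>
    rw [ball_succ, ball_succ, ← ih]
    unfold cns
    rw [Finset.biUnion_image, Finset.image_biUnion]
    refine Finset.biUnion_congr rfl fun w _ => ?_
    exact (image_cn φ w)

theorem card_ball_eq {G : SimpleGraph V} (hG : VertexTransitive G) (u v : V) (r : ℕ) :
    (ball G u r).card = (ball G v r).card := by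
  obtain ⟨φ, rfl⟩ := hG u v
  rw [← image_ball φ u r, Finset.card_image_of_injective _ φ.injective]

theorem geo : GeoStmt where
  ball_zero := fun V _ G u => ball_zero G u
  ball_succ := fun V _ G u r => ball_succ G u r
  ball_add := fun V _ G u r s => ball_add G u r s
  ball_comm := fun V _ G u v r => ball_comm G u v r
  near4 := by
    intro V _ G D hG v
    have h1 : v ∉ Finset.univ.filter fun w => Near G 4 v w := fun h =>
      (Finset.mem_filter.1 h).2.1 rfl
    rw [← Finset.card_insert_of_notMem h1]
    refine (Finset.card_le_card fun w hw => ?_).trans (card_ball_le hG v 4)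
    rw [mem_ball]
    rcases Finset.mem_insert.1 hw with rfl | hw
    · simp
    · exact (Finset.mem_filter.1 hw).2.2
  reg_of_trans := by
    intro V _ _ G hG
    obtain ⟨v0⟩ : Nonempty V := inferInstance
    refine ⟨(nbr G v0).card, fun v => ?_⟩
    obtain ⟨φ, rfl⟩ := hG v0 v
    rw [← image_nbr φ v0, Finset.card_image_of_injective _ φ.injective]
  card_ball_eq := fun V _ G hG u v r => card_ball_eq hG u v r
  card_ball_add := by
    intro V _ G hG u r s
    rw [ball_add]
    refine Finset.card_biUnion_le.trans ?_
    rw [Finset.sum_congr rfl fun w _ => card_ball_eq hG w u s, Finset.sum_const, smul_eq_mul]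
  disjoint_balls := by
    intro V _ G r β hβ
    obtain ⟨Z, hZ, hmax⟩ := Finset.exists_max_image
      (Finset.univ.filter fun Z : Finset V => (Z : Set V).PairwiseDisjoint fun v => ball G v r)
      (fun Z => Z.card) ⟨∅, by simp⟩
    have hZ' : (Z : Set V).PairwiseDisjoint fun v => ball G v r := (Finset.mem_filter.1 hZ).2
    refine ⟨Z, hZ', ?_⟩
    have hcov : (Finset.univ : Finset V) ⊆ Z.biUnion fun z => ball G z (2 * r) := by
      intro v _
      rw [Finset.mem_biUnion]
      by_contra hcon
      push Not at hcon
      have hvZ : v ∉ Z := by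
        intro h
        refine hcon v h ?_
        rw [mem_ball]
        simp
      have hd : ∀ z ∈ Z, Disjoint (ball G v r) (ball G z r) := by
        intro z hz
        rw [Finset.disjoint_left]
        intro x hx hx'
        refine hcon z hz ?_
        rw [two_mul, ball_add, Finset.mem_biUnion]
        exact ⟨x, hx', (ball_comm G v x r).1 hx⟩
      have h1 : ((insert v Z : Finset V) : Set V).PairwiseDisjoint fun v => ball G v r := by
        rw [Finset.coe_insert]
        refine (Set.pairwiseDisjoint_insert).2 ⟨hZ', fun z hz _ => hd z hz⟩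
      have h2 := hmax (insert v Z) (Finset.mem_filter.2 ⟨Finset.mem_univ _, h1⟩)
      rw [Finset.card_insert_of_notMem hvZ] at h2
      omega
    calc Fintype.card V = (Finset.univ : Finset V).card := rfl
      _ ≤ (Z.biUnion fun z => ball G z (2 * r)).card := Finset.card_le_card hcov
      _ ≤ ∑ z ∈ Z, (ball G z (2 * r)).card := Finset.card_biUnion_le
      _ ≤ ∑ _z ∈ Z, β := Finset.sum_le_sum fun z _ => hβ z
      _ = Z.card * β := by rw [Finset.sum_const, smul_eq_mul]

end

end Helper76.LSA
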