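import Pool.Agent.Helper43_LSA.Stmts

/-!
# Module IID: births
-/

namespace Helper76.LSA

open Helper43.LSA Classical
open scoped ENNReal

noncomputable section

variable {V : Type} [Fintype V]

theorem ex_iid_succ (q : PMF V) (m : ℕ) (f : List V → ℝ≥0∞) :
    ex (iid q (m + 1)) f = ∑ u, q u * ex (iid q m) (fun l => f (u :: l)) := by
  simp only [iid]
  rw [ex_bind, ex_fintype]
  simp_rw [ex_map]

theorem pr_iid_succ (q : PMF V) (m : ℕ) (S : List V → Prop) :
    pr (iid q (m + 1)) S = ∑ u, q u * pr (iid q m) (fun l => S (u :: l)) := by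
  unfold pr
  rw [ex_iid_succ]

theorem ex_iid_zero (q : PMF V) (f : List V → ℝ≥0∞) : ex (iid q 0) f = f [] := by
  simp only [iid]
  rw [ex_pure]

theorem ex_eq_zero {α : Type} (P : PMF α) {f : α → ℝ≥0∞} (h : ∀ a ∈ P.support, f a = 0) :
    ex P f = 0 := by
  rw [ex_congr P (g := fun _ => 0) h, ex_const]

theorem chain_eq (G : SimpleGraph V) (q : PMF V) (m : ℕ) (X : V → ℕ) :
    chain G q m X = (iid q m).bind fun l => runL G l X := by
  induction m generalizing X with
  | zero => simp [chain, iid, runL]
  | succ m ih =>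
    rw [Nat.add_comm m 1, chain_add]
    have h1 : chain G q 1 X = stepLaw G q X := by simp [chain]
    have h2 : chain G q m = fun Y => (iid q m).bind fun l => runL G l Y := funext fun Y => ih Y
    rw [h1, h2, Nat.add_comm 1 m]
    simp only [iid, stepLaw]
    rw [PMF.bind_bind, PMF.bind_bind]
    congr 1
    funext u
    rw [PMF.map, PMF.map, PMF.bind_bind, PMF.bind_bind]
    simp only [Function.comp, PMF.pure_bind, runL]
    rw [PMF.bind_comm]

theorem iid_add (q : PMF V) (l m : ℕ) :
    iid q (l + m) = (iid q l).bind fun a => (iid q m).map fun b => a ++ b := by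
  induction l with
  | zero =>
    simp only [iid, Nat.zero_add, PMF.pure_bind, List.nil_append]
    exact (PMF.map_id (iid q m)).symm
  | succ l ih =>
    rw [Nat.add_right_comm]
    simp only [iid]
    rw [ih, PMF.bind_bind]
    congr 1
    funext u
    rw [PMF.map_bind, PMF.map, PMF.bind_bind]
    congr 1
    funext a
    simp only [Function.comp, PMF.pure_bind, PMF.map_comp, List.cons_append]
    rfl

theorem runL_append (G : SimpleGraph V) (l l' : List V) (X : V → ℕ) :
    runL G (l ++ l') X = (runL G l X).bind (runL G l') := by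
  induction l generalizing X with
  | nil => simp [runL]
  | cons u l ih =>
    simp only [List.cons_append, runL]
    rw [PMF.bind_bind]
    congr 1
    funext w
    exact ih (bump X w)

theorem iid_length (q : PMF V) (m : ℕ) : ∀ l ∈ (iid q m).support, l.length = m := by
  induction m with
  | zero =>
    intro l hl
    simp only [iid, PMF.support_pure, Set.mem_singleton_iff] at hl
    rw [hl]; rfl
  | succ m ih =>
    intro l hl
    simp only [iid] at hl
    rw [PMF.mem_support_bind_iff] at hl
    obtain ⟨u, _, hl⟩ := hl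
    rw [PMF.mem_support_map_iff] at hl
    obtain ⟨l', hl', rfl⟩ := hl
    rw [List.length_cons, ih l' hl']

theorem hitP_nonneg (n M s : ℕ) (hs : s ≤ n) : 0 ≤ hitP n M s := by
  induction M generalizing s with
  | zero =>
    simp only [hitP]
    split <;> norm_num
  | succ M ih =>
    simp only [hitP]
    have h1 := ih (s - 1) (by omega)
    have h2 := ih s hs
    have h3 : (s : ℝ) / n ≤ 1 := by
      rcases Nat.eq_zero_or_pos n with h | h
      · subst h; simp
      · rw [div_le_one (by exact_mod_cast h)]
        exact_mod_cast hs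
    have h4 : (0 : ℝ) ≤ s / n := by positivity
    have h5 : (0 : ℝ) ≤ 1 - s / n := by linarith
    positivity

theorem unif_apply [Nonempty V] (u : V) : unif V u = ((Fintype.card V : ℕ) : ℝ≥0∞)⁻¹ := by
  simp [unif, PMF.uniformOfFintype_apply]

theorem hit [Nonempty V] (M : ℕ) (S : Finset V) :
    pr (iid (unif V) M) (fun l => ∀ u ∈ S, u ∈ l) =
      ENNReal.ofReal (hitP (Fintype.card V) M S.card) := by
  have hn : 0 < Fintype.card V := Fintype.card_pos
  have hn' : (0 : ℝ) < Fintype.card V := by exact_mod_cast hn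
  induction M generalizing S with
  | zero =>
    unfold pr
    rw [ex_iid_zero]
    by_cases h : S = ∅
    · subst h; simp [hitP]
    · have h1 : ¬ ∀ u ∈ S, u ∈ ([] : List V) := by
        intro h2
        obtain ⟨x, hx⟩ := Finset.nonempty_iff_ne_empty.2 h
        exact absurd (h2 x hx) (by simp)
      rw [if_neg h1]
      simp [hitP, h]
  | succ M ih =>
    have hstep : ∀ u : V, pr (iid (unif V) M) (fun l => ∀ v ∈ S, v ∈ u :: l) =
        ENNReal.ofReal (hitP (Fintype.card V) M (S.erase u).card) := by
      intro u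
      rw [← ih (S.erase u)]
      congr 1
      funext l
      apply propext
      constructor
      · intro h v hv
        rw [Finset.mem_erase] at hv
        rcases List.mem_cons.1 (h v hv.2) with h1 | h1
        · exact absurd h1 hv.1
        · exact h1
      · intro h v hv
        by_cases hvu : v = u
        · subst hvu; exact List.mem_cons_self
        · exact List.mem_cons_of_mem _ (h v (Finset.mem_erase.2 ⟨hvu, hv⟩))
    rw [pr_iid_succ]
    simp_rw [hstep, unif_apply]
    have hS : S.card ≤ Fintype.card V := Finset.card_le_univ S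
    have h0 := hitP_nonneg (Fintype.card V) M S.card hS
    have h0' := hitP_nonneg (Fintype.card V) M (S.card - 1) (by omega)
    rw [← Finset.mul_sum, ← Finset.sum_add_sum_compl S]
    rw [Finset.sum_congr rfl fun u (hu : u ∈ S) => by rw [Finset.card_erase_of_mem hu]]
    rw [Finset.sum_congr (s₁ := Sᶜ) rfl fun u (hu : u ∈ Sᶜ) => by
      rw [Finset.erase_eq_of_notMem (Finset.mem_compl.1 hu)]]
    rw [Finset.sum_const, Finset.sum_const, nsmul_eq_mul, nsmul_eq_mul]
    have e1 : ((Fintype.card V : ℕ) : ℝ≥0∞)⁻¹ = ENNReal.ofReal ((Fintype.card V : ℝ)⁻¹) := by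
      rw [ENNReal.ofReal_inv_of_pos hn', ENNReal.ofReal_natCast]
    rw [e1, ← ENNReal.ofReal_natCast S.card, ← ENNReal.ofReal_natCast Sᶜ.card,
      ← ENNReal.ofReal_mul (Nat.cast_nonneg _), ← ENNReal.ofReal_mul (Nat.cast_nonneg _),
      ← ENNReal.ofReal_add (by positivity) (by positivity), ← ENNReal.ofReal_mul (by positivity)]
    congr 1
    simp only [hitP]
    have e2 : ((Sᶜ.card : ℕ) : ℝ) = (Fintype.card V : ℝ) - S.card := by
      rw [Finset.card_compl, Nat.cast_sub hS]
    rw [e2]
    field_simp

theorem avoid [Nonempty V] (M : ℕ) (S : Finset V) :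
    pr (iid (unif V) M) (fun l => ∀ u ∈ l, u ∉ S) =
      ENNReal.ofReal ((1 - S.card / Fintype.card V) ^ M) := by
  have hn : 0 < Fintype.card V := Fintype.card_pos
  have hn' : (0 : ℝ) < Fintype.card V := by exact_mod_cast hn
  have hS : S.card ≤ Fintype.card V := Finset.card_le_univ S
  have hS' : (S.card : ℝ) ≤ Fintype.card V := by exact_mod_cast hS
  have hp : (0 : ℝ) ≤ 1 - S.card / Fintype.card V := by
    rw [sub_nonneg, div_le_one hn']
    exact hS'
  induction M with
  | zero =>
    unfold pr
    rw [ex_iid_zero]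
    simp
  | succ M ih =>
    rw [pr_iid_succ]
    have hstep : ∀ u : V, pr (iid (unif V) M) (fun l => ∀ v ∈ u :: l, v ∉ S) =
        if u ∈ S then 0 else ENNReal.ofReal ((1 - S.card / Fintype.card V) ^ M) := by
      intro u
      by_cases hu : u ∈ S
      · rw [if_pos hu]
        refine ex_eq_zero _ fun l _ => ?_
        rw [if_neg fun h => h u List.mem_cons_self hu]
      · rw [if_neg hu, ← ih]
        congr 1
        funext l
        apply propext
        constructor
        · intro h v hv
          exact h v (List.mem_cons_of_mem _ hv)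
        · intro h v hv
          rcases List.mem_cons.1 hv with rfl | hv
          · exact hu
          · exact h v hv
    beta_reduce
    simp_rw [hstep, unif_apply]
    rw [← Finset.mul_sum, ← Finset.sum_add_sum_compl S]
    rw [Finset.sum_congr rfl fun u (hu : u ∈ S) => if_pos hu]
    rw [Finset.sum_congr (s₁ := Sᶜ) rfl fun u (hu : u ∈ Sᶜ) => if_neg (Finset.mem_compl.1 hu)]
    rw [Finset.sum_const_zero, zero_add, Finset.sum_const, nsmul_eq_mul]
    have e1 : ((Fintype.card V : ℕ) : ℝ≥0∞)⁻¹ = ENNReal.ofReal ((Fintype.card V : ℝ)⁻¹) := by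
      rw [ENNReal.ofReal_inv_of_pos hn', ENNReal.ofReal_natCast]
    rw [e1, ← ENNReal.ofReal_natCast Sᶜ.card,
      ← ENNReal.ofReal_mul (Nat.cast_nonneg _), ← ENNReal.ofReal_mul (by positivity)]
    congr 1
    have e2 : ((Sᶜ.card : ℕ) : ℝ) = (Fintype.card V : ℝ) - S.card := by
      rw [Finset.card_compl, Nat.cast_sub hS]
    rw [e2, pow_succ]
    field_simp

theorem avoid_ex [Nonempty V] (M : ℕ) (S : Finset V) (hS : Sᶜ.Nonempty) (f : List V → ℝ≥0∞) :
    ex (iid (unif V) M) (fun l => if ∀ u ∈ l, u ∉ S then f l else 0) =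
      ENNReal.ofReal ((1 - S.card / Fintype.card V) ^ M) *
        ex (iid (PMF.uniformOfFinset Sᶜ hS) M) f := by
  have hn : 0 < Fintype.card V := Fintype.card_pos
  have hn' : (0 : ℝ) < Fintype.card V := by exact_mod_cast hn
  have hS1 : S.card ≤ Fintype.card V := Finset.card_le_univ S
  have hS' : (S.card : ℝ) ≤ Fintype.card V := by exact_mod_cast hS1
  have hp : (0 : ℝ) ≤ 1 - S.card / Fintype.card V := by
    rw [sub_nonneg, div_le_one hn']
    exact hS'
  have hc : 0 < Sᶜ.card := Finset.card_pos.2 hS
  have hc' : (0 : ℝ) < Sᶜ.card := by exact_mod_cast hc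
  have e2 : ((Sᶜ.card : ℕ) : ℝ) = (Fintype.card V : ℝ) - S.card := by
    rw [Finset.card_compl, Nat.cast_sub hS1]
  have e1 : ((Fintype.card V : ℕ) : ℝ≥0∞)⁻¹ =
      ENNReal.ofReal (1 - S.card / Fintype.card V) * ((Sᶜ.card : ℕ) : ℝ≥0∞)⁻¹ := by
    have h1 : ((Fintype.card V : ℕ) : ℝ≥0∞)⁻¹ = ENNReal.ofReal ((Fintype.card V : ℝ)⁻¹) := by
      rw [ENNReal.ofReal_inv_of_pos hn', ENNReal.ofReal_natCast]
    have h2 : ((Sᶜ.card : ℕ) : ℝ≥0∞)⁻¹ = ENNReal.ofReal ((Sᶜ.card : ℝ)⁻¹) := by
      rw [ENNReal.ofReal_inv_of_pos hc', ENNReal.ofReal_natCast]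
    rw [h1, h2, ← ENNReal.ofReal_mul hp]
    congr 1
    have h3 : (0 : ℝ) < (Fintype.card V : ℝ) - S.card := by rw [← e2]; exact hc'
    rw [e2]
    field_simp
  induction M generalizing f with
  | zero =>
    rw [ex_iid_zero, ex_iid_zero]
    simp
  | succ M ih =>
    rw [ex_iid_succ, ex_iid_succ]
    have hstep : ∀ u : V, ex (iid (unif V) M)
        (fun l => if ∀ v ∈ u :: l, v ∉ S then f (u :: l) else 0) =
        if u ∈ S then 0 else ENNReal.ofReal ((1 - S.card / Fintype.card V) ^ M) *
          ex (iid (PMF.uniformOfFinset Sᶜ hS) M) (fun l => f (u :: l)) := by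
      intro u
      by_cases hu : u ∈ S
      · rw [if_pos hu]
        refine ex_eq_zero _ fun l _ => ?_
        rw [if_neg fun h => h u List.mem_cons_self hu]
      · rw [if_neg hu, ← ih]
        refine ex_congr _ fun l _ => ?_
        congr 1
        apply propext
        constructor
        · intro h v hv
          exact h v (List.mem_cons_of_mem _ hv)
        · intro h v hv
          rcases List.mem_cons.1 hv with rfl | hv
          · exact hu
          · exact h v hv
    beta_reduce
    simp_rw [hstep, unif_apply]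
    rw [Finset.mul_sum]
    refine Finset.sum_congr rfl fun u _ => ?_
    by_cases hu : u ∈ S
    · rw [if_pos hu, mul_zero, PMF.uniformOfFinset_apply_of_notMem _ (by simpa using hu),
        zero_mul, mul_zero]
    · rw [if_neg hu, PMF.uniformOfFinset_apply_of_mem _ (by simpa using hu), e1, pow_succ,
        ENNReal.ofReal_mul (pow_nonneg hp M)]
      ring

theorem iid_stmt : IidStmt where
  chain_eq := fun _ _ G q m X => chain_eq G q m X
  iid_add := fun _ _ q l m => iid_add q l m
  runL_append := fun _ _ G l l' X => runL_append G l l' X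
  length := fun _ _ q m => iid_length q m
  hit := fun _ _ _ M S => hit M S
  avoid := fun _ _ _ M S => avoid M S
  avoid_ex := fun _ _ _ M S hS f => avoid_ex M S hS f

end

end Helper76.LSA
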