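import Pool.Agent.Helper76_LSA.Lowr

/-!
# Module LOWPH: one phase of the lower potential
-/

namespace Helper76.LSA

open Helper43.LSA Classical
open scoped ENNReal

noncomputable section

variable {V : Type} [Fintype V]

/-! ### The parameter -/

/-- the parameter after `i` balls -/
def epsf (n D i : ℕ) : ℝ :=
  max (1 / 30 - ((i - 100 * n : ℕ) : ℝ) / (100000 * n)) (min (1 / 30) (1 / (8 * D)))

theorem epsf_pos {n D i : ℕ} (hD : 1 ≤ D) : 0 < epsf n D i := by
  have : (0 : ℝ) < D := by exact_mod_cast hD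
  exact lt_max_of_lt_right (lt_min (by norm_num) (by positivity))

theorem epsf_le (n D i : ℕ) : epsf n D i ≤ 1 / 30 := by
  refine max_le ?_ (min_le_left _ _)
  have : (0 : ℝ) ≤ ((i - 100 * n : ℕ) : ℝ) / (100000 * n) := by positivity
  linarith

theorem epsf_start {n D i : ℕ} (h : i ≤ 100 * n) : epsf n D i = 1 / 30 := by
  have h1 : i - 100 * n = 0 := by omega
  unfold epsf
  rw [h1]
  simp only [Nat.cast_zero, zero_div, sub_zero]
  exact max_eq_left (min_le_left _ _)

theorem epsf_anti (n D i : ℕ) : epsf n D (i + 1) ≤ epsf n D i := by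
  refine max_le_max ?_ le_rfl
  have h1 : ((i - 100 * n : ℕ) : ℝ) ≤ ((i + 1 - 100 * n : ℕ) : ℝ) := by
    exact_mod_cast (by omega : i - 100 * n ≤ i + 1 - 100 * n)
  have h2 : ((i - 100 * n : ℕ) : ℝ) / (100000 * n) ≤ ((i + 1 - 100 * n : ℕ) : ℝ) / (100000 * n) := by
    gcongr
  linarith

theorem epsf_step {n D i : ℕ} (hn : 0 < n) :
    epsf n D i - epsf n D (i + 1) ≤ 1 / (100000 * n) := by
  have hn' : (0 : ℝ) < n := by exact_mod_cast hn
  have h1 : ((i + 1 - 100 * n : ℕ) : ℝ) ≤ ((i - 100 * n : ℕ) : ℝ) + 1 := by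
    exact_mod_cast (by omega : i + 1 - 100 * n ≤ (i - 100 * n) + 1)
  have h2 : ((i + 1 - 100 * n : ℕ) : ℝ) / (100000 * n) ≤
      ((i - 100 * n : ℕ) : ℝ) / (100000 * n) + 1 / (100000 * n) := by
    rw [← add_div]
    gcongr
  have h3 : epsf n D i ≤ epsf n D (i + 1) + 1 / (100000 * n) := by
    unfold epsf
    refine max_le ?_ ?_
    · have := le_max_left (1 / 30 - ((i + 1 - 100 * n : ℕ) : ℝ) / (100000 * n))
        (min (1 / 30) (1 / (8 * (D : ℝ))))
      linarith
    · have := le_max_right (1 / 30 - ((i + 1 - 100 * n : ℕ) : ℝ) / (100000 * n))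
        (min (1 / 30) (1 / (8 * (D : ℝ))))
      have h4 : (0 : ℝ) ≤ 1 / (100000 * n) := by positivity
      linarith
  linarith

theorem epsf_ge {n D i : ℕ} (h : epsf n D (i + 1) < epsf n D i) :
    1 / (8 * (D : ℝ)) ≤ epsf n D (i + 1) := by
  by_cases h1 : (1 : ℝ) / 30 ≤ 1 / (8 * (D : ℝ))
  · exfalso
    have key : ∀ j, epsf n D j = 1 / 30 := by
      intro j
      refine le_antisymm (epsf_le n D j) ?_
      unfold epsf
      rw [min_eq_left h1]
      exact le_max_right _ _
    rw [key, key] at h
    exact lt_irrefl _ h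
  · push Not at h1
    unfold epsf
    rw [min_eq_right h1.le]
    exact le_max_right _ _

theorem epsf_end {n D : ℕ} (hn : 0 < n) (hD : 1 ≤ D) : epsf n D (3500 * n) * D ≤ 1 / 8 := by
  have hn' : (0 : ℝ) < n := by exact_mod_cast hn
  have hD' : (0 : ℝ) < D := by exact_mod_cast hD
  have h1 : epsf n D (3500 * n) = min (1 / 30) (1 / (8 * (D : ℝ))) := by
    unfold epsf
    refine max_eq_right ?_
    have h2 : ((3500 * n - 100 * n : ℕ) : ℝ) = 3400 * n := by
      have : 3500 * n - 100 * n = 3400 * n := by omega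
      rw [this]; push_cast; ring
    rw [h2]
    have h3 : (3400 * (n : ℝ)) / (100000 * n) = 34 / 1000 := by
      field_simp
      norm_num
    rw [h3]
    have h4 : (0 : ℝ) ≤ min (1 / 30) (1 / (8 * (D : ℝ))) := le_min (by norm_num) (by positivity)
    refine le_trans ?_ h4
    norm_num
  rw [h1]
  calc min (1 / 30) (1 / (8 * (D : ℝ))) * D ≤ (1 / (8 * (D : ℝ))) * D := by
        gcongr
        exact min_le_right _ _
    _ = 1 / 8 := by field_simp

/-! ### The rate -/

theorem rate_nonneg (G : SimpleGraph V) (k : ℕ) (X : V → ℕ) (T : Finset V) :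
    (T.card : ℝ) ≤ rate G k X T := by
  unfold rate
  have : (0 : ℝ) ≤ ∑ u ∈ (lowSet X k)ᶜ,
      ((nbr G u ∩ T).card : ℝ) / ((nbr G u ∩ lowSet X k).card : ℝ) :=
    Finset.sum_nonneg fun _ _ => by positivity
  linarith

theorem rate_le_card (G : SimpleGraph V) (k : ℕ) (X : V → ℕ) (T : Finset V)
    (hT : T ⊆ lowSet X k) : rate G k X T ≤ Fintype.card V := by
  unfold rate
  have h1 : ∑ u ∈ (lowSet X k)ᶜ,
      ((nbr G u ∩ T).card : ℝ) / ((nbr G u ∩ lowSet X k).card : ℝ) ≤
      ∑ _u ∈ (lowSet X k)ᶜ, 1 := by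
    refine Finset.sum_le_sum fun u _ => ?_
    refine div_le_one_of_le₀ ?_ (Nat.cast_nonneg _)
    exact_mod_cast Finset.card_le_card (Finset.inter_subset_inter_left hT)
  rw [Finset.sum_const, nsmul_eq_mul, mul_one] at h1
  have h2 : (T.card : ℝ) ≤ (lowSet X k).card := by exact_mod_cast Finset.card_le_card hT
  have h3 : ((lowSet X k).card : ℝ) + ((lowSet X k)ᶜ.card : ℝ) = Fintype.card V := by
    exact_mod_cast Finset.card_add_card_compl (lowSet X k)
  linarith

theorem mem_fam {G : SimpleGraph V} {k : ℕ} {X : V → ℕ} {A T : Finset V} :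
    T ∈ fam G k X A ↔ T ⊆ lowSet X k ∧ Rooted (Near G 2) A T := by simp [fam]

/-- the good event -/
def good (G : SimpleGraph V) (k : ℕ) (X : V → ℕ) (T : Finset V) (w : V) : Prop :=
  (w ∈ T ∧ X w = k) ∨ w ∈ Cl G k X (cns G T)

/-- the mean of the factor -/
theorem mean_factor [Nonempty V] (hL : LowrStmt) {G : SimpleGraph V} {k : ℕ} {X : V → ℕ}
    (hX : Smooth G X) {T : Finset V} (hT : T ⊆ lowSet X k) :
    ∑ u, unif V u * ex (walk G X u) (fun w => if good G k X T w then 1 / 2 else 1) ≤
      ENNReal.ofReal (1 - rate G k X T / (2 * Fintype.card V)) := by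
  have hn : 0 < Fintype.card V := Fintype.card_pos
  have hn' : (0 : ℝ) < Fintype.card V := by exact_mod_cast hn
  have h1 := hL.rate_le V G k X hX T hT
  have hr0 : 0 ≤ rate G k X T := (Nat.cast_nonneg _).trans (rate_nonneg G k X T)
  set E := ∑ u, unif V u * ex (walk G X u) (fun w => if good G k X T w then 1 / 2 else 1) with hE
  have h2 : E + ENNReal.ofReal (rate G k X T / (2 * Fintype.card V)) ≤ 1 := by
    have e1 : ENNReal.ofReal (rate G k X T / (2 * Fintype.card V)) =
        ((Fintype.card V : ℕ) : ℝ≥0∞)⁻¹ * (1 / 2 * ENNReal.ofReal (rate G k X T)) := by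
      have h3 : ((Fintype.card V : ℕ) : ℝ≥0∞)⁻¹ = ENNReal.ofReal ((Fintype.card V : ℝ)⁻¹) := by
        rw [ENNReal.ofReal_inv_of_pos hn', ENNReal.ofReal_natCast]
      have h4 : (1 / 2 : ℝ≥0∞) = ENNReal.ofReal (1 / 2) := by
        rw [ENNReal.ofReal_div_of_pos (by norm_num)]
        simp
      rw [h3, h4, ← ENNReal.ofReal_mul (by norm_num), ← ENNReal.ofReal_mul (by positivity)]
      congr 1
      field_simp
    have hun : ∀ u : V, unif V u = ((Fintype.card V : ℕ) : ℝ≥0∞)⁻¹ := fun u => by
      simp [unif, PMF.uniformOfFintype_apply]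
    rw [e1, hE]
    simp_rw [hun]
    rw [← Finset.mul_sum, ← mul_add]
    have h5 : ∑ u, ex (walk G X u) (fun w => if good G k X T w then 1 / 2 else 1) +
        1 / 2 * ENNReal.ofReal (rate G k X T) ≤ Fintype.card V := by
      calc ∑ u, ex (walk G X u) (fun w => if good G k X T w then 1 / 2 else 1) +
            1 / 2 * ENNReal.ofReal (rate G k X T)
          ≤ ∑ u, ex (walk G X u) (fun w => if good G k X T w then 1 / 2 else 1) +
            1 / 2 * ∑ u, ex (walk G X u) (fun w => if good G k X T w then 1 else 0) := by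
            gcongr
            refine h1.trans (le_of_eq ?_)
            refine Finset.sum_congr rfl fun u _ => ex_congr _ fun w _ => ?_
            by_cases hg : good G k X T w
            · rw [if_pos hg]
              exact if_pos hg
            · rw [if_neg hg]
              exact if_neg hg
        _ = ∑ u : V, (1 : ℝ≥0∞) := by
            rw [Finset.mul_sum, ← Finset.sum_add_distrib]
            refine Finset.sum_congr rfl fun u _ => ?_
            rw [← ex_mul_left, ← ex_add]
            refine (ex_congr _ fun w _ => ?_).trans (ex_const (walk G X u) 1)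
            by_cases hg : good G k X T w
            · rw [if_pos hg, if_pos hg, mul_one]
              exact ENNReal.add_halves 1
            · rw [if_neg hg, if_neg hg, mul_zero, add_zero]
        _ = _ := by simp
    calc ((Fintype.card V : ℕ) : ℝ≥0∞)⁻¹ *
          (∑ u, ex (walk G X u) (fun w => if good G k X T w then 1 / 2 else 1) +
          1 / 2 * ENNReal.ofReal (rate G k X T))
        ≤ ((Fintype.card V : ℕ) : ℝ≥0∞)⁻¹ * Fintype.card V := by gcongr
      _ = 1 := ENNReal.inv_mul_cancel (by exact_mod_cast hn.ne') (ENNReal.natCast_ne_top _)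
  have h6 : ENNReal.ofReal (1 - rate G k X T / (2 * Fintype.card V)) =
      1 - ENNReal.ofReal (rate G k X T / (2 * Fintype.card V)) := by
    rw [ENNReal.ofReal_sub _ (by positivity), ENNReal.ofReal_one]
  rw [h6]
  exact ENNReal.le_sub_of_add_le_right ENNReal.ofReal_ne_top h2

/-- the coefficients -/
def cf (G : SimpleGraph V) (D i : ℕ) (T : Finset V) : ℝ :=
  Real.exp (Phi G D (epsf (Fintype.card V) D i) T - 50 * T.card +
    ((min i (100 * Fintype.card V) : ℕ) : ℝ) / (2 * Fintype.card V) * T.card)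

theorem cf_pos (G : SimpleGraph V) (D i : ℕ) (T : Finset V) : 0 < cf G D i T := Real.exp_pos _

/-- the potential -/
def Psi (G : SimpleGraph V) (D k : ℕ) (A : Finset V) (i : ℕ) (X : V → ℕ) : ℝ≥0∞ :=
  ∑ T ∈ fam G k X A, ENNReal.ofReal (cf G D i T) * 2 ^ mlow G k X (cns G T)

theorem Psi_bump (hL : LowrStmt) (G : SimpleGraph V) (D k : ℕ) (A : Finset V) (i : ℕ)
    (X : V → ℕ) (w : V) :
    Psi G D k A i (bump X w) ≤ ∑ T ∈ fam G k X A, ENNReal.ofReal (cf G D i T) *
      2 ^ mlow G k X (cns G T) * (if good G k X T w then 1 / 2 else 1) := by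
  unfold Psi
  have hsub : fam G k (bump X w) A ⊆ fam G k X A := by
    intro T hT
    rw [mem_fam] at hT ⊢
    refine ⟨fun x hx => ?_, hT.2⟩
    have := hT.1 hx
    simp only [lowSet, Finset.mem_filter, Finset.mem_univ, true_and] at this ⊢
    exact (le_bump X w x).trans this
  refine (Finset.sum_le_sum fun T hT => ?_).trans (Finset.sum_le_sum_of_subset hsub)
  rw [mem_fam] at hT
  rw [mul_assoc]
  refine mul_le_mul_right ?_ _
  by_cases hg : good G k X T w
  · rw [if_pos hg]
    rcases hg with ⟨h1, h2⟩ | h1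
    · exfalso
      have := hT.1 h1
      simp only [lowSet, Finset.mem_filter, Finset.mem_univ, true_and, bump_self] at this
      omega
    · have h2 := hL.mlow_bump_good V G k X (cns G T) w h1
      calc (2 : ℝ≥0∞) ^ mlow G k (bump X w) (cns G T)
          = 2 ^ (mlow G k (bump X w) (cns G T) + 1) * (1 / 2) := by
            rw [pow_succ, mul_assoc, one_div, ENNReal.mul_inv_cancel (by norm_num) (by norm_num),
              mul_one]
        _ ≤ 2 ^ mlow G k X (cns G T) * (1 / 2) := by
            gcongr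
            norm_num
  · rw [if_neg hg, mul_one]
    exact pow_le_pow_right₀ (by norm_num) (hL.mlow_bump V G k X (cns G T) w)

theorem step_le [Nonempty V] (hL : LowrStmt) {G : SimpleGraph V} (D k : ℕ) (A : Finset V) (i : ℕ)
    {X : V → ℕ} (hX : Smooth G X) :
    ex (stepLaw G (unif V) X) (Psi G D k A (i + 1)) ≤
      ∑ T ∈ fam G k X A, ENNReal.ofReal (cf G D (i + 1) T) * 2 ^ mlow G k X (cns G T) *
        ENNReal.ofReal (1 - rate G k X T / (2 * Fintype.card V)) := by
  rw [ex_stepLaw]
  calc ∑ u, unif V u * ex (walk G X u) (fun w => Psi G D k A (i + 1) (bump X w))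
      ≤ ∑ u, unif V u * ex (walk G X u) (fun w => ∑ T ∈ fam G k X A,
        ENNReal.ofReal (cf G D (i + 1) T) * 2 ^ mlow G k X (cns G T) *
          (if good G k X T w then 1 / 2 else 1)) := by
        refine Finset.sum_le_sum fun u _ => mul_le_mul_right ?_ _
        exact ex_mono _ fun w _ => Psi_bump hL G D k A (i + 1) X w
    _ = ∑ T ∈ fam G k X A, ENNReal.ofReal (cf G D (i + 1) T) * 2 ^ mlow G k X (cns G T) *
        ∑ u, unif V u * ex (walk G X u) (fun w => if good G k X T w then 1 / 2 else 1) := by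
        simp_rw [ex_finset_sum, Finset.mul_sum]
        rw [Finset.sum_comm]
        refine Finset.sum_congr rfl fun T _ => Finset.sum_congr rfl fun u _ => ?_
        rw [ex_mul_left, mul_left_comm]
    _ ≤ _ := by
        refine Finset.sum_le_sum fun T hT => mul_le_mul_right ?_ _
        exact mean_factor hL hX (mem_fam.1 hT).1

/-- the potential is a supermartingale -/
theorem super [Nonempty V] (hL : LowrStmt) (hDr : DriftStmt) {G : SimpleGraph V} {D : ℕ}
    (hD : 1 ≤ D) (hG : Reg G D) (k : ℕ) (A : Finset V) (i : ℕ) {X : V → ℕ} (hX : Smooth G X) :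
    ex (stepLaw G (unif V) X) (Psi G D k A (i + 1)) ≤ Psi G D k A i X := by
  have hn : 0 < Fintype.card V := Fintype.card_pos
  have hn' : (0 : ℝ) < Fintype.card V := by exact_mod_cast hn
  refine (step_le hL D k A i hX).trans ?_
  have hr : ∀ T ∈ fam G k X A, 0 ≤ 1 - rate G k X T / (2 * Fintype.card V) ∧
      1 - rate G k X T / (2 * Fintype.card V) ≤ 1 - T.card / (2 * Fintype.card V) := by
    intro T hT
    have h1 := rate_le_card G k X T (mem_fam.1 hT).1
    have h2 := rate_nonneg G k X T
    constructor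
    · rw [sub_nonneg, div_le_one (by positivity)]
      linarith
    · have : (T.card : ℝ) / (2 * Fintype.card V) ≤ rate G k X T / (2 * Fintype.card V) := by
        gcongr
      linarith
  have htriv : (∀ T ∈ fam G k X A, cf G D (i + 1) T * (1 - rate G k X T / (2 * Fintype.card V)) ≤
      cf G D i T) → ∑ T ∈ fam G k X A, ENNReal.ofReal (cf G D (i + 1) T) *
        2 ^ mlow G k X (cns G T) * ENNReal.ofReal (1 - rate G k X T / (2 * Fintype.card V)) ≤
      Psi G D k A i X := by
    intro h
    refine Finset.sum_le_sum fun T hT => ?_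
    rw [mul_right_comm, ← ENNReal.ofReal_mul (cf_pos G D (i + 1) T).le]
    exact mul_le_mul_left (ENNReal.ofReal_le_ofReal (h T hT)) _
  rcases Nat.lt_or_ge i (100 * Fintype.card V) with hi | hi
  · -- first part
    apply htriv
    intro T hT
    have e1 : epsf (Fintype.card V) D (i + 1) = epsf (Fintype.card V) D i := by
      rw [epsf_start (by omega), epsf_start hi.le]
    have e2 : (min (i + 1) (100 * Fintype.card V) : ℕ) = i + 1 := min_eq_left (by omega)
    have e3 : (min i (100 * Fintype.card V) : ℕ) = i := min_eq_left hi.le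
    unfold cf
    rw [e1, e2, e3]
    have h1 : 1 - rate G k X T / (2 * Fintype.card V) ≤
        Real.exp (-((T.card : ℝ) / (2 * Fintype.card V))) := by
      refine (hr T hT).2.trans ?_
      have := Real.add_one_le_exp (-((T.card : ℝ) / (2 * Fintype.card V)))
      linarith
    refine (mul_le_mul_of_nonneg_left h1 (Real.exp_pos _).le).trans (le_of_eq ?_)
    rw [← Real.exp_add]
    congr 1
    push_cast
    field_simp
    ring
  · have e2 : (min (i + 1) (100 * Fintype.card V) : ℕ) = 100 * Fintype.card V :=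
      min_eq_right (by omega)
    have e3 : (min i (100 * Fintype.card V) : ℕ) = 100 * Fintype.card V := min_eq_right hi
    have e4 : ∀ x : ℝ, ((100 * Fintype.card V : ℕ) : ℝ) / (2 * Fintype.card V) * x = 50 * x := by
      intro x
      push_cast
      field_simp
      ring
    have c1 : ∀ T, cf G D (i + 1) T =
        Real.exp (Phi G D (epsf (Fintype.card V) D (i + 1)) T) := by
      intro T
      unfold cf
      rw [e2, e4]
      congr 1
      ring
    have c2 : ∀ T, cf G D i T = Real.exp (Phi G D (epsf (Fintype.card V) D i) T) := by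
      intro T
      unfold cf
      rw [e3, e4]
      congr 1
      ring
    rcases (epsf_anti (Fintype.card V) D i).lt_or_eq with hlt | heq
    · -- drift
      set ε := epsf (Fintype.card V) D i with hε
      have hεpos : 0 < ε := epsf_pos hD
      let η : ℝ := 1 - epsf (Fintype.card V) D (i + 1) / ε
      have hη : (1 - η) * ε = epsf (Fintype.card V) D (i + 1) := by
        simp only [η]
        field_simp
        ring
      have hη0 : 0 ≤ η := by
        simp only [η]
        rw [sub_nonneg, div_le_one hεpos]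
        exact hlt.le
      have h2 : η * ε * (100000 * Fintype.card V) ≤ 1 := by
        have h3 : η * ε = ε - epsf (Fintype.card V) D (i + 1) := by linarith
        rw [h3]
        have h4 := epsf_step (D := D) (i := i) hn
        rw [← hε] at h4
        calc (ε - epsf (Fintype.card V) D (i + 1)) * (100000 * Fintype.card V)
            ≤ 1 / (100000 * Fintype.card V) * (100000 * Fintype.card V) := by gcongr
          _ = 1 := by field_simp
      have h5 := hDr V G D hD hG k X A hX ε η hεpos (epsf_le _ _ _) hη0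
        (by rw [hη]; exact epsf_ge hlt) h2
      rw [hη] at h5
      unfold Psi
      simp_rw [c1, c2]
      have conv1 : ∀ (f : Finset V → ℝ) (_ : ∀ T ∈ fam G k X A, 0 ≤ f T),
          ∑ T ∈ fam G k X A, ENNReal.ofReal (f T) = ENNReal.ofReal (∑ T ∈ fam G k X A, f T) :=
        fun f hf => (ENNReal.ofReal_sum_of_nonneg hf).symm
      have p2 : ∀ m : ℕ, (2 : ℝ≥0∞) ^ m = ENNReal.ofReal ((2 : ℝ) ^ m) := by
        intro m
        rw [ENNReal.ofReal_pow (by norm_num)]
        simp
      have l1 : ∀ T ∈ fam G k X A,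
          ENNReal.ofReal (Real.exp (Phi G D (epsf (Fintype.card V) D (i + 1)) T)) *
            2 ^ mlow G k X (cns G T) *
            ENNReal.ofReal (1 - rate G k X T / (2 * Fintype.card V)) =
          ENNReal.ofReal (Real.exp (Phi G D (epsf (Fintype.card V) D (i + 1)) T) *
            2 ^ mlow G k X (cns G T) * (1 - rate G k X T / (2 * Fintype.card V))) := by
        intro T _
        rw [p2, ← ENNReal.ofReal_mul (Real.exp_pos _).le, ← ENNReal.ofReal_mul (by positivity)]
      have l2 : ∀ T ∈ fam G k X A,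
          ENNReal.ofReal (Real.exp (Phi G D ε T)) * 2 ^ mlow G k X (cns G T) =
          ENNReal.ofReal (Real.exp (Phi G D ε T) * 2 ^ mlow G k X (cns G T)) := by
        intro T _
        rw [p2, ← ENNReal.ofReal_mul (Real.exp_pos _).le]
      rw [Finset.sum_congr rfl l1, Finset.sum_congr rfl l2, conv1 _ (fun T hT =>
        mul_nonneg (by positivity) (hr T hT).1), conv1 _ (fun T _ => by positivity)]
      exact ENNReal.ofReal_le_ofReal h5
    · apply htriv
      intro T hT
      rw [c1, c2, heq]
      have h1 : 1 - rate G k X T / (2 * Fintype.card V) ≤ 1 := by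
        refine (hr T hT).2.trans ?_
        have : (0 : ℝ) ≤ (T.card : ℝ) / (2 * Fintype.card V) := by positivity
        linarith
      exact mul_le_of_le_one_right (Real.exp_pos _).le h1

/-! ### The start and the end -/

theorem card_cns_le {G : SimpleGraph V} {D : ℕ} (hG : Reg G D) (T : Finset V) :
    (cns G T).card ≤ (D + 1) * T.card := by
  calc (cns G T).card ≤ ∑ w ∈ T, (cn G w).card := Finset.card_biUnion_le
    _ = (D + 1) * T.card := by
        rw [Finset.sum_congr rfl fun w _ => card_cn hG w, Finset.sum_const, smul_eq_mul, mul_comm]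

theorem dl3_eq (D : ℕ) : 1 + dl3 D = ENNReal.ofReal (1 + 2 / ((D : ℝ) + 1) ^ 3) := by
  unfold dl3
  have h : (0 : ℝ) < ((D : ℝ) + 1) ^ 3 := by positivity
  rw [ENNReal.ofReal_add (by norm_num) (by positivity), ENNReal.ofReal_one,
    ENNReal.ofReal_div_of_pos h, div_eq_mul_inv, ENNReal.ofReal_pow (by positivity),
    ENNReal.ofReal_add (by positivity) (by norm_num), ENNReal.ofReal_natCast, ENNReal.ofReal_one]
  simp

theorem dl3_pow {D : ℕ} (hD : 1 ≤ D) (t : ℕ) :
    (1 + dl3 D) ^ ((D + 1) * t) ≤ ENNReal.ofReal (Real.exp t) := by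
  have hD' : (1 : ℝ) ≤ D := by exact_mod_cast hD
  rw [dl3_eq, ← ENNReal.ofReal_pow (by positivity)]
  refine ENNReal.ofReal_le_ofReal ?_
  rw [pow_mul]
  have h1 : (1 + 2 / ((D : ℝ) + 1) ^ 3) ^ (D + 1) ≤ Real.exp 1 := by
    have h2 : 1 + 2 / ((D : ℝ) + 1) ^ 3 ≤ Real.exp (2 / ((D : ℝ) + 1) ^ 3) := by
      have := Real.add_one_le_exp (2 / ((D : ℝ) + 1) ^ 3)
      linarith
    calc (1 + 2 / ((D : ℝ) + 1) ^ 3) ^ (D + 1)
        ≤ (Real.exp (2 / ((D : ℝ) + 1) ^ 3)) ^ (D + 1) := by gcongr
      _ = Real.exp (((D : ℝ) + 1) * (2 / ((D : ℝ) + 1) ^ 3)) := by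
          rw [← Real.exp_nat_mul]
          push_cast
          rfl
      _ ≤ Real.exp 1 := by
          apply Real.exp_le_exp.2
          have h3 : ((D : ℝ) + 1) * (2 / ((D : ℝ) + 1) ^ 3) = 2 / ((D : ℝ) + 1) ^ 2 := by
            field_simp
          rw [h3, div_le_one (by positivity)]
          nlinarith
  calc ((1 + 2 / ((D : ℝ) + 1) ^ 3) ^ (D + 1)) ^ t ≤ (Real.exp 1) ^ t := by gcongr
    _ = Real.exp t := by rw [← Real.exp_nat_mul, mul_one]

theorem final_le (hLpa : LpaStmt) [Nonempty V] {G : SimpleGraph V} {D : ℕ} (hD : 1 ≤ D)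
    (k : ℕ) (A : Finset V) (X : V → ℕ) :
    2 ^ mlow G (k + 1) X A ≤ Psi G D k A (3500 * Fintype.card V) X := by
  have hn : 0 < Fintype.card V := Fintype.card_pos
  have hn' : (0 : ℝ) < Fintype.card V := by exact_mod_cast hn
  set T := Cl G (k + 1) X A with hT
  have hlow : ∀ w ∈ T, X w ≤ k := fun w hw => by
    have := lt_of_mem_Cl hw
    omega
  have hmem : T ∈ fam G k X A := by
    refine mem_fam.2 ⟨fun w hw => ?_, fun w hw => ?_⟩
    · simp only [lowSet, Finset.mem_filter, Finset.mem_univ, true_and]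
      exact hlow w hw
    · obtain ⟨r, h1, h2, h3⟩ := mem_Cl.1 hw
      refine ⟨r, h1, mem_Cl_of_mem h1 h2, ?_⟩
      clear hw
      induction h3 with
      | refl => exact Relation.ReflTransGen.refl
      | tail hab hbc ih =>
        rename_i b c
        refine ih.tail ⟨⟨fun h => ?_, ?_⟩, ?_⟩
        · subst h
          exact G.loopless.irrefl _ hbc.1
        · rw [SimpleGraph.edist_eq_one_iff_adj.2 hbc.1]
          norm_num
        · exact mem_Cl.2 ⟨r, h1, h2, hab.tail hbc⟩
  have hml : mlow G (k + 1) X A ≤ T.card + mlow G k X (cns G T) := by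
    unfold mlow
    rw [← hT]
    have h1 : ∑ w ∈ T, (k + 1 - X w) = T.card + ∑ w ∈ T, (k - X w) := by
      rw [Finset.card_eq_sum_ones, ← Finset.sum_add_distrib]
      refine Finset.sum_congr rfl fun w hw => ?_
      have := hlow w hw
      omega
    rw [h1]
    refine Nat.add_le_add_left ?_ _
    have h2 : ∑ w ∈ T, (k - X w) = ∑ w ∈ T.filter (fun w => X w < k), (k - X w) := by
      rw [Finset.sum_filter]
      refine Finset.sum_congr rfl fun w _ => ?_
      split_ifs with h
      · rfl
      · omega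
    rw [h2]
    refine Finset.sum_le_sum_of_subset fun w hw => ?_
    rw [Finset.mem_filter] at hw
    exact mem_Cl_of_mem (mem_cns.2 ⟨w, hw.1, self_mem_cn G w⟩) hw.2
  have hcf : (2 : ℝ≥0∞) ^ T.card ≤ ENNReal.ofReal (cf G D (3500 * Fintype.card V) T) := by
    have e3 : (min (3500 * Fintype.card V) (100 * Fintype.card V) : ℕ) = 100 * Fintype.card V :=
      min_eq_right (by omega)
    have h1 := hLpa.ge8 V G D (epsf (Fintype.card V) D (3500 * Fintype.card V)) T
      (epsf_pos hD).le (epsf_end hn hD)
    have h2 : (2 : ℝ) ^ T.card ≤ cf G D (3500 * Fintype.card V) T := by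
      unfold cf
      rw [e3]
      have e4 : ((100 * Fintype.card V : ℕ) : ℝ) / (2 * Fintype.card V) * (T.card : ℝ) =
          50 * T.card := by
        push_cast
        field_simp
        ring
      rw [e4]
      have h3 : Real.exp (8 * (T.card : ℝ)) ≤ Real.exp
          (Phi G D (epsf (Fintype.card V) D (3500 * Fintype.card V)) T - 50 * T.card +
            50 * T.card) := by
        apply Real.exp_le_exp.2
        linarith
      refine le_trans ?_ h3
      have h4 : (2 : ℝ) ≤ Real.exp 8 := by
        have := Real.add_one_le_exp (8 : ℝ)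
        linarith
      calc (2 : ℝ) ^ T.card ≤ (Real.exp 8) ^ T.card := by gcongr
        _ = Real.exp (8 * (T.card : ℝ)) := by rw [← Real.exp_nat_mul, mul_comm]
    have h5 : (2 : ℝ≥0∞) ^ T.card = ENNReal.ofReal ((2 : ℝ) ^ T.card) := by
      rw [ENNReal.ofReal_pow (by norm_num)]
      simp
    rw [h5]
    exact ENNReal.ofReal_le_ofReal h2
  calc (2 : ℝ≥0∞) ^ mlow G (k + 1) X A ≤ 2 ^ (T.card + mlow G k X (cns G T)) :=
        pow_le_pow_right₀ (by norm_num) hml
    _ = 2 ^ T.card * 2 ^ mlow G k X (cns G T) := pow_add _ _ _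
    _ ≤ ENNReal.ofReal (cf G D (3500 * Fintype.card V) T) * 2 ^ mlow G k X (cns G T) := by
        gcongr
    _ ≤ _ := Finset.single_le_sum
        (f := fun T => ENNReal.ofReal (cf G D (3500 * Fintype.card V) T) *
          2 ^ mlow G k X (cns G T)) (fun _ _ => zero_le) hmem

theorem lowph (hLpa : LpaStmt) (hLpc : LpcStmt) (hL : LowrStmt) (hDr : DriftStmt) :
    LowphStmt := by
  intro V _ _ G D hD hG k P hP hE A
  have hn : 0 < Fintype.card V := Fintype.card_pos
  rw [ex_bind]
  calc ex P (fun X => ex (chain G (unif V) (3500 * Fintype.card V) X)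
        (fun X => 2 ^ mlow G (k + 1) X A))
      ≤ ex P (fun X => Psi G D k A 0 X) := by
        refine ex_mono _ fun X hX => ?_
        refine (ex_mono _ fun Y _ => final_le hLpa hD k A Y).trans ?_
        exact ex_chain_le (hP X hX) (Psi G D k A) fun i _ Y hY => super hL hDr hD hG k A i hY
    _ ≤ ex P (fun X => ∑ T ∈ Finset.univ.filter (fun T : Finset V => Rooted (Near G 2) A T),
        ENNReal.ofReal (cf G D 0 T) * 2 ^ mlow G k X (cns G T)) := by
        refine ex_mono _ fun X _ => ?_
        refine Finset.sum_le_sum_of_subset fun T hT => ?_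
        exact Finset.mem_filter.2 ⟨Finset.mem_univ _, (mem_fam.1 hT).2⟩
    _ = ∑ T ∈ Finset.univ.filter (fun T : Finset V => Rooted (Near G 2) A T),
        ENNReal.ofReal (cf G D 0 T) * ex P (fun X => 2 ^ mlow G k X (cns G T)) := by
        rw [ex_finset_sum]
        exact Finset.sum_congr rfl fun T _ => ex_mul_left _ _ _
    _ ≤ ∑ T ∈ Finset.univ.filter (fun T : Finset V => Rooted (Near G 2) A T),
        ENNReal.ofReal (Real.exp (Phi G D (1 / 30) T - 49 * T.card)) := by
        refine Finset.sum_le_sum fun T _ => ?_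
        have h1 : ex P (fun X => 2 ^ mlow G k X (cns G T)) ≤ ENNReal.ofReal (Real.exp T.card) := by
          refine (hE (cns G T)).trans (le_trans ?_ (dl3_pow hD T.card))
          exact pow_le_pow_right₀ le_self_add (card_cns_le hG T)
        refine (mul_le_mul_right h1 _).trans (le_of_eq ?_)
        rw [← ENNReal.ofReal_mul (cf_pos G D 0 T).le]
        congr 1
        unfold cf
        rw [epsf_start (Nat.zero_le _), Nat.zero_min, Nat.cast_zero, zero_div, zero_mul, add_zero,
          ← Real.exp_add]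
        congr 1
        ring
    _ ≤ _ := hLpc V G D hD hG A

end

end Helper76.LSA
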