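import Pool.Agent.Helper43_LSA.Stmts

/-!
# Module UPN: the upper theorem
-/

namespace Helper76.LSA

open Helper43.LSA Classical
open scoped ENNReal

noncomputable section

variable {V : Type} [Fintype V]

theorem load_ball (hGeo : GeoStmt) {G : SimpleGraph V} {X : V → ℕ} (hX : Smooth G X) (w : V)
    (i : ℕ) : ∀ v ∈ ball G w i, X w ≤ X v + i := by
  induction i with
  | zero =>
    intro v hv
    rw [hGeo.ball_zero, Finset.mem_singleton] at hv
    rw [hv]; omega
  | succ i ih =>
    intro v hv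
    rw [hGeo.ball_succ] at hv
    simp only [cns, Finset.mem_biUnion, mem_cn] at hv
    obtain ⟨x, hx, h⟩ := hv
    have h1 := ih x hx
    rcases h with rfl | h
    · omega
    · have := hX x v h
      omega

theorem ball_mono (G : SimpleGraph V) (w : V) {i s : ℕ} (h : i ≤ s) : ball G w i ⊆ ball G w s := by
  intro v hv
  rw [mem_ball] at hv ⊢
  exact hv.trans (by exact_mod_cast h)

theorem mup_ge (hGeo : GeoStmt) {G : SimpleGraph V} {X : V → ℕ} (hX : Smooth G X) (w : V)
    (k s : ℕ) (hw : k + 1 + s ≤ X w) :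
    ∑ i ∈ Finset.range (s + 1), (ball G w i).card ≤ mup (k + 1) X (ball G w s) := by
  unfold mup
  have h1 : ∀ i ∈ Finset.range (s + 1), (ball G w i).card =
      ∑ v ∈ ball G w s, if v ∈ ball G w i then 1 else 0 := by
    intro i hi
    rw [Finset.sum_ite_mem, Finset.sum_const, smul_eq_mul, mul_one,
      Finset.inter_eq_right.2 (ball_mono G w (by rw [Finset.mem_range] at hi; omega))]
  rw [Finset.sum_congr rfl h1, Finset.sum_comm]
  refine Finset.sum_le_sum fun v _ => ?_
  rw [← Finset.card_filter]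
  have hsub : (Finset.range (s + 1)).filter (fun i => v ∈ ball G w i) ⊆
      Finset.Ico (s + 1 - (X v + 1 - (k + 1))) (s + 1) := by
    intro i hi
    rw [Finset.mem_filter, Finset.mem_range] at hi
    have := load_ball hGeo hX w i v hi.2
    rw [Finset.mem_Ico]
    omega
  refine (Finset.card_le_card hsub).trans ?_
  rw [Nat.card_Ico]
  omega

theorem phases (hU : UpphStmt) {G : SimpleGraph V} {D : ℕ} (hG : Reg G D) (q : PMF V)
    (Q a : ℝ≥0∞) (hq : ∀ u, q u ≤ Q) (ha : 2 ^ 64 ≤ a) (ha' : a ≠ ⊤) (m : ℕ)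
    (hm : 6 * m * Q * a ≤ 1) (k : ℕ) :
    ∀ A : Finset V, ex (chain G q (k * m) 0) (fun X => a ^ mup (k + 1) X A) ≤
      (1 + dl D) ^ A.card := by
  induction k with
  | zero =>
    intro A
    rw [Nat.zero_mul, ex_chain_zero]
    have : mup (0 + 1) (0 : V → ℕ) A = 0 := by simp [mup]
    rw [this, pow_zero]
    exact one_le_pow_of_one_le' le_self_add _
  | succ k ih =>
    intro A
    have h1 : chain G q ((k + 1) * m) 0 = (chain G q (k * m) 0).bind (chain G q m) := by
      rw [Nat.succ_mul, chain_add]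
    rw [h1]
    exact hU V G D hG q Q a hq ha ha' m hm _ (fun X hX => smooth_of_chain (smooth_zero G) hX)
      (k + 1) (by omega) ih A

theorem pr_chain_mono {G : SimpleGraph V} {q : PMF V} {M M' : ℕ} (h : M ≤ M') (X : V → ℕ)
    (S : (V → ℕ) → Prop) (hS : ∀ X X', X ≤ X' → S X → S X') :
    pr (chain G q M X) S ≤ pr (chain G q M' X) S := by
  obtain ⟨d, rfl⟩ := Nat.exists_eq_add_of_le h
  rw [chain_add]
  unfold pr
  rw [ex_bind]
  refine ex_mono _ fun Y _ => ?_
  by_cases hY : S Y
  · rw [if_pos hY]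
    refine (ex_const (chain G q d Y) 1).ge.trans (ex_mono _ fun Z hZ => ?_)
    rw [if_pos (hS Y Z (le_of_chain hZ) hY)]
  · rw [if_neg hY]
    exact zero_le

theorem dl_le_one (D : ℕ) : dl D ≤ 1 := by
  unfold dl
  rw [ENNReal.inv_le_one]
  exact one_le_pow_of_one_le' le_add_self _

theorem upn (hU : UpphStmt) (hGeo : GeoStmt) : UpperStmt := by
  intro V _ G D hG q Q a hq ha ha' m k M hm hM s w
  set N := ∑ i ∈ Finset.range (s + 1), (ball G w i).card with hN
  have ha0 : a ≠ 0 := fun h => by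
    rw [h] at ha
    simp at ha
  have ha1 : 1 ≤ a := le_trans (one_le_pow_of_one_le' (by norm_num) 64) ha
  have h1 : pr (chain G q M 0) (fun X => k + 1 + s ≤ X w) ≤
      pr (chain G q (k * m) 0) (fun X => a ^ N ≤ a ^ mup (k + 1) X (ball G w s)) := by
    refine (pr_chain_mono hM 0 _ fun X X' h h' => le_trans h' (h w)).trans ?_
    refine pr_mono _ fun X hX h => ?_
    exact pow_le_pow_right₀ ha1 (mup_ge hGeo (smooth_of_chain (smooth_zero G) hX) w k s h)
  have h2 := markov (chain G q (k * m) 0) (fun X => a ^ mup (k + 1) X (ball G w s)) (a ^ N)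
  have h3 := phases hU hG q Q a hq ha ha' m hm k (ball G w s)
  have h4 : (1 + dl D) ^ (ball G w s).card ≤ 2 ^ N := by
    calc (1 + dl D) ^ (ball G w s).card ≤ 2 ^ (ball G w s).card := by
          refine pow_le_pow_left' ?_ _
          calc 1 + dl D ≤ 1 + 1 := add_le_add le_rfl (dl_le_one D)
            _ = 2 := by norm_num
      _ ≤ 2 ^ N := by
          refine pow_le_pow_right₀ (by norm_num) ?_
          exact Finset.single_le_sum (f := fun i => (ball G w i).card) (fun _ _ => Nat.zero_le _)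
            (Finset.self_mem_range_succ s)
  have haN0 : a ^ N ≠ 0 := pow_ne_zero _ ha0
  have haN1 : a ^ N ≠ ⊤ := ENNReal.pow_ne_top ha'
  refine h1.trans ?_
  have h5 : a ^ N * pr (chain G q (k * m) 0)
      (fun X => a ^ N ≤ a ^ mup (k + 1) X (ball G w s)) ≤ 2 ^ N := h2.trans (h3.trans h4)
  calc pr (chain G q (k * m) 0) (fun X => a ^ N ≤ a ^ mup (k + 1) X (ball G w s))
      = (a ^ N)⁻¹ * (a ^ N * pr (chain G q (k * m) 0)
        (fun X => a ^ N ≤ a ^ mup (k + 1) X (ball G w s))) := by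
        rw [← mul_assoc, ENNReal.inv_mul_cancel haN0 haN1, one_mul]
    _ ≤ (a ^ N)⁻¹ * 2 ^ N := by gcongr
    _ = (2 / a) ^ N := by
        rw [div_eq_mul_inv, mul_pow, ENNReal.inv_pow, mul_comm]

end

end Helper76.LSA
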