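import Pool.Agent.Helper43_LSA.Stmts

/-!
# Module UPR: the rate of landing at height at least `b - 1` in a closed set
-/

namespace Helper76.LSA

open Helper43.LSA Classical
open scoped ENNReal

noncomputable section

variable {V : Type} [Fintype V]

/-- the indicator of the landing event -/
def gU (b : ℕ) (X : V → ℕ) (S : Finset V) (w : V) : ℝ≥0∞ := if w ∈ S ∧ b ≤ X w + 1 then 1 else 0

theorem gU_le (b : ℕ) (X : V → ℕ) (S : Finset V) (w : V) : gU b X S w ≤ 1 := by
  unfold gU
  split <;> simp

theorem hU_le (G : SimpleGraph V) (b : ℕ) (X : V → ℕ) (S : Finset V) (u : V) :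
    ex (walk G X u) (gU b X S) ≤ 1 := by
  conv_rhs => rw [← ex_const (walk G X u) 1]
  exact ex_mono _ fun w _ => gU_le b X S w

/-- a ball which is at a vertex of load at most `b - 2` does not count -/
theorem hU_zero_of_low {G : SimpleGraph V} {b : ℕ} {X : V → ℕ} {S : Finset V} {u : V}
    (h : X u + 1 < b) : ex (walk G X u) (gU b X S) = 0 := by
  have h1 : ex (walk G X u) (gU b X S) = ex (walk G X u) (fun _ => 0) := by
    refine ex_congr _ fun w hw => ?_
    have := load_le_of_mem_support hw
    unfold gU
    rw [if_neg]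
    rintro ⟨_, h2⟩
    omega
  rw [h1, ex_const]

/-- a ball at a vertex of load less than `b`, outside of `S`, does not count -/
theorem hU_zero_of_not_mem {G : SimpleGraph V} {b : ℕ} {X : V → ℕ} {S : Finset V} {u : V}
    (hu : u ∉ S) (h : X u < b) : ex (walk G X u) (gU b X S) = 0 := by
  by_cases hm : CanMove G X u
  · rw [ex_walk_move hm]
    refine Finset.sum_eq_zero fun w hw => ?_
    rw [hU_zero_of_low (by have := lowNbr_lt hm hw; omega), mul_zero]
  · rw [ex_walk_stay hm]
    unfold gU
    rw [if_neg fun h => hu h.1]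

/-- a ball at a vertex of load less than `b` counts only if the vertex is in `S` -/
theorem hU_le_of_lt {G : SimpleGraph V} {b : ℕ} {X : V → ℕ} {S : Finset V} {u : V}
    (h : X u < b) : ex (walk G X u) (gU b X S) ≤ if u ∈ S then 1 else 0 := by
  by_cases hu : u ∈ S
  · rw [if_pos hu]
    exact hU_le G b X S u
  · rw [if_neg hu, hU_zero_of_not_mem hu h]

theorem edist_step {G : SimpleGraph V} {t u w : V} (h : G.Adj u w) {n : ℕ∞}
    (ht : G.edist t w ≤ n) : G.edist t u ≤ n + 1 := by
  have h1 : G.edist t u ≤ G.edist t w + G.edist w u := SimpleGraph.edist_triangle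
  have h2 : G.edist w u = 1 := SimpleGraph.edist_eq_one_iff_adj.2 h.symm
  rw [h2] at h1
  exact h1.trans (add_le_add_left ht 1)

theorem inv_le_three {L D : ℕ} (h : D ≤ 3 * L) (hL : L ≠ 0) :
    ((L : ℝ≥0∞))⁻¹ ≤ 3 * (D : ℝ≥0∞)⁻¹ := by
  have h1 : (D : ℝ≥0∞) ≤ 3 * (L : ℝ≥0∞) := by exact_mod_cast h
  have h2 : (3 * (L : ℝ≥0∞))⁻¹ ≤ (D : ℝ≥0∞)⁻¹ := ENNReal.inv_le_inv.2 h1
  calc ((L : ℝ≥0∞))⁻¹ = 3 * (3 * (L : ℝ≥0∞))⁻¹ := by
        rw [ENNReal.mul_inv (Or.inl (by norm_num)) (Or.inl (by norm_num)), ← mul_assoc,
          ENNReal.mul_inv_cancel (by norm_num) (by norm_num), one_mul]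
    _ ≤ 3 * (D : ℝ≥0∞)⁻¹ := by gcongr

theorem sum_nbr {G : SimpleGraph V} {D : ℕ} (hG : Reg G D) (S : Finset V) :
    ∑ u, (nbr G u ∩ S).card = D * S.card := by
  have h1 : ∀ u, (nbr G u ∩ S).card = ∑ s ∈ S, if G.Adj u s then 1 else 0 := by
    intro u
    rw [Finset.inter_comm, ← Finset.filter_mem_eq_inter, Finset.card_filter]
    refine Finset.sum_congr rfl fun s _ => ?_
    simp only [mem_nbr]
  simp_rw [h1]
  rw [Finset.sum_comm]
  have h2 : ∀ s ∈ S, (∑ u, if G.Adj u s then 1 else 0) = D := by
    intro s _
    rw [← Finset.card_filter, ← hG s]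
    congr 1
    ext u
    simp [nbr, G.adj_comm]
  rw [Finset.sum_congr rfl h2, Finset.sum_const, smul_eq_mul, mul_comm]

theorem upr : UprStmt := by
  intro V _ G D hG X hX b T S hb hcl hTS hS
  change ∑ u, ex (walk G X u) (gU b X S) ≤ 6 * S.card
  rcases Nat.lt_or_ge D 8 with hD | hD
  · -- small degree: `S = T`
    have hST : S = T := by
      refine Finset.Subset.antisymm (fun z hz => ?_) hTS
      rcases Finset.mem_union.1 (hS hz) with h | h
      · exact h
      · simp only [BdSet, Finset.mem_filter, Finset.mem_univ, true_and] at h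
        have h1 : cn G z \ T = ∅ := by
          rcases h with h | h
          · exact h
          · rw [← Finset.card_eq_zero]
            omega
        exact (Finset.sdiff_eq_empty_iff_subset.1 h1) (self_mem_cn G z)
    subst hST
    have key : ∀ u, u ∉ S → ex (walk G X u) (gU b X S) = 0 := by
      refine walk_induction G X (fun u => u ∉ S → ex (walk G X u) (gU b X S) = 0) ?_ ?_
      · intro u hm hu
        rw [ex_walk_stay hm]
        unfold gU
        rw [if_neg fun h => hu h.1]
      · intro u hm ih hu
        rw [ex_walk_move hm]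
        refine Finset.sum_eq_zero fun w hw => ?_
        by_cases hwS : w ∈ S
        · have hXu : X u < b := by
            by_contra hcon
            have h1 := hcl w ⟨w, hwS, by simp⟩
            have h2 : (nbr G w ∩ hiSet X b) \ S = ∅ := by
              rcases h1 with h1 | h1
              · exact h1
              · rw [← Finset.card_eq_zero]
                omega
            refine hu ((Finset.sdiff_eq_empty_iff_subset.1 h2) (Finset.mem_inter.2 ⟨?_, ?_⟩))
            · exact mem_nbr.2 (mem_lowNbr.1 hw).1.symm
            · simp only [hiSet, Finset.mem_filter, Finset.mem_univ, true_and]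
              omega
          have h3 := lowNbr_lt hm hw
          rw [hU_zero_of_low (by omega), mul_zero]
        · rw [ih w hw hwS, mul_zero]
    calc ∑ u, ex (walk G X u) (gU b X S) = ∑ u ∈ S, ex (walk G X u) (gU b X S) :=
          (Finset.sum_subset (Finset.subset_univ S) fun u _ hu => key u hu).symm
      _ ≤ ∑ _u ∈ S, 1 := Finset.sum_le_sum fun u _ => hU_le G b X S u
      _ = (S.card : ℝ≥0∞) := by simp
      _ ≤ 6 * S.card := le_mul_of_one_le_left zero_le (by norm_num)
  · -- large degree
    have hD0 : D ≠ 0 := by omega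
    let dS : Finset V := Finset.univ.filter fun w => D < 2 * (nbr G w ∩ S).card
    have hdS : dS.card ≤ 2 * S.card := by
      have h1 : D * dS.card ≤ 2 * ∑ w ∈ dS, (nbr G w ∩ S).card := by
        rw [Finset.mul_sum, mul_comm D, ← smul_eq_mul dS.card D, ← Finset.sum_const]
        refine Finset.sum_le_sum fun w hw => ?_
        have := (Finset.mem_filter.1 hw).2
        omega
      have h2 : ∑ w ∈ dS, (nbr G w ∩ S).card ≤ D * S.card := by
        rw [← sum_nbr hG S]
        exact Finset.sum_le_sum_of_subset (Finset.subset_univ _)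
      have h3 : D * dS.card ≤ D * (2 * S.card) := by
        calc D * dS.card ≤ 2 * (D * S.card) := h1.trans (Nat.mul_le_mul_left 2 h2)
          _ = D * (2 * S.card) := by ring
      exact Nat.le_of_mul_le_mul_left h3 (by omega)
    -- points of `S` are within distance one of `T`
    have hnear : ∀ z ∈ S, ∃ t ∈ T, G.edist t z ≤ 1 := by
      intro z hz
      rcases Finset.mem_union.1 (hS hz) with h | h
      · exact ⟨z, h, by simp⟩
      · simp only [BdSet, Finset.mem_filter, Finset.mem_univ, true_and] at h
        have h1 : (cn G z ∩ T).Nonempty := by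
          rw [← Finset.card_pos]
          have h2 := Finset.card_sdiff_add_card_inter (cn G z) T
          rw [card_cn hG] at h2
          rcases h with h | h
          · rw [h, Finset.card_empty] at h2
            omega
          · omega
        obtain ⟨t, ht⟩ := h1
        rw [Finset.mem_inter, mem_cn] at ht
        refine ⟨t, ht.2, ?_⟩
        rcases ht.1 with rfl | h3
        · simp
        · rw [SimpleGraph.edist_eq_one_iff_adj.2 h3.symm]
    -- first case
    have case1 : ∀ u, u ∉ S → u ∉ dS → (∃ t ∈ T, G.edist t u ≤ 3) →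
        ex (walk G X u) (gU b X S) ≤ (nbr G u ∩ S).card * (3 * (D : ℝ≥0∞)⁻¹) := by
      intro u huS hudS hdist
      rcases Nat.lt_or_ge (X u) b with hlt | hge
      · rw [hU_zero_of_not_mem huS hlt]
        exact zero_le
      have h1 : 8 * ((nbr G u ∩ hiSet X b) \ T).card < D := by
        rcases hcl u hdist with h | h
        · rw [h, Finset.card_empty]
          omega
        · exact h
      have h2 : 2 * (nbr G u ∩ S).card ≤ D := by
        by_contra hcon
        exact hudS (Finset.mem_filter.2 ⟨Finset.mem_univ _, not_le.1 hcon⟩)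
      have h3 : (nbr G u ∩ hiSet X b).card ≤
          ((nbr G u ∩ hiSet X b) \ T).card + (nbr G u ∩ S).card := by
        rw [← Finset.card_sdiff_add_card_inter (nbr G u ∩ hiSet X b) T]
        refine Nat.add_le_add_left (Finset.card_le_card fun x hx => ?_) _
        rw [Finset.mem_inter, Finset.mem_inter] at hx
        exact Finset.mem_inter.2 ⟨hx.1.1, hTS hx.2⟩
      have h4 : (nbr G u \ hiSet X b).card + (nbr G u ∩ hiSet X b).card = D := by
        rw [Finset.card_sdiff_add_card_inter, hG u]
      have hL : D ≤ 3 * (nbr G u \ hiSet X b).card := by omega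
      have hLpos : 0 < (nbr G u \ hiSet X b).card := by omega
      obtain ⟨z, hz⟩ := Finset.card_pos.1 hLpos
      have hmemL : ∀ z, z ∈ nbr G u \ hiSet X b ↔ G.Adj u z ∧ X z < b := by
        intro z
        rw [Finset.mem_sdiff, mem_nbr]
        simp [hiSet]
      have hz' := (hmemL z).1 hz
      have h5 := hX u z hz'.1
      have hXu : X u = b := by omega
      have hm : CanMove G X u := ⟨z, hz'.1, by omega⟩
      have hlow : lowNbr G X u = nbr G u \ hiSet X b := by
        ext w
        rw [mem_lowNbr, hmemL]
        constructor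
        · rintro ⟨h6, h7⟩
          exact ⟨h6, lt_of_le_of_lt (h7 z hz'.1) hz'.2⟩
        · rintro ⟨h6, h7⟩
          refine ⟨h6, fun y hy => ?_⟩
          have := hX u y hy
          omega
      rw [ex_walk_move hm, hlow]
      calc ∑ w ∈ nbr G u \ hiSet X b, (((nbr G u \ hiSet X b).card : ℝ≥0∞))⁻¹ *
            ex (walk G X w) (gU b X S)
          ≤ ∑ w ∈ nbr G u \ hiSet X b, (3 * (D : ℝ≥0∞)⁻¹) * (if w ∈ S then 1 else 0) := by
            refine Finset.sum_le_sum fun w hw => ?_
            exact mul_le_mul' (inv_le_three hL (by omega)) (hU_le_of_lt ((hmemL w).1 hw).2)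
        _ = (3 * (D : ℝ≥0∞)⁻¹) * (((nbr G u \ hiSet X b) ∩ S).card : ℝ≥0∞) := by
            rw [← Finset.mul_sum]
            congr 1
            rw [Finset.sum_ite_mem]
            simp
        _ ≤ (3 * (D : ℝ≥0∞)⁻¹) * ((nbr G u ∩ S).card : ℝ≥0∞) := by
            gcongr
            exact Finset.sdiff_subset
        _ = _ := mul_comm _ _
    -- second case
    have case2 : ∀ u, (¬ ∃ t ∈ T, G.edist t u ≤ 2) → ex (walk G X u) (gU b X S) = 0 := by
      refine walk_induction G X
        (fun u => (¬ ∃ t ∈ T, G.edist t u ≤ 2) → ex (walk G X u) (gU b X S) = 0) ?_ ?_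
      · intro u hm hu
        rw [ex_walk_stay hm]
        unfold gU
        rw [if_neg]
        rintro ⟨h1, _⟩
        obtain ⟨t, ht, h2⟩ := hnear u h1
        exact hu ⟨t, ht, h2.trans (by norm_num)⟩
      · intro u hm ih hu
        have huS : u ∉ S := by
          intro h1
          obtain ⟨t, ht, h2⟩ := hnear u h1
          exact hu ⟨t, ht, h2.trans (by norm_num)⟩
        have hNS : nbr G u ∩ S = ∅ := by
          rw [Finset.eq_empty_iff_forall_notMem]
          intro x hx
          rw [Finset.mem_inter, mem_nbr] at hx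
          obtain ⟨t, ht, h2⟩ := hnear x hx.2
          refine hu ⟨t, ht, (edist_step hx.1 h2).trans ?_⟩
          norm_num
        by_cases h3 : ∃ t ∈ T, G.edist t u ≤ 3
        · have h4 : u ∉ dS := by
            intro h
            have := (Finset.mem_filter.1 h).2
            rw [hNS, Finset.card_empty] at this
            omega
          have h5 := case1 u huS h4 h3
          rw [hNS, Finset.card_empty, Nat.cast_zero, zero_mul] at h5
          exact le_antisymm h5 zero_le
        · rw [ex_walk_move hm]
          refine Finset.sum_eq_zero fun w hw => ?_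
          rw [ih w hw, mul_zero]
          rintro ⟨t, ht, h4⟩
          refine h3 ⟨t, ht, (edist_step (mem_lowNbr.1 hw).1 h4).trans ?_⟩
          norm_num
    -- the bound for all sources
    have hall : ∀ u, ex (walk G X u) (gU b X S) ≤ (if u ∈ S then 1 else 0) +
        (if u ∈ dS then 1 else 0) + (nbr G u ∩ S).card * (3 * (D : ℝ≥0∞)⁻¹) := by
      intro u
      by_cases h1 : u ∈ S
      · rw [if_pos h1, add_assoc]
        exact (hU_le G b X S u).trans le_self_add
      · rw [if_neg h1, zero_add]
        by_cases h2 : u ∈ dS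
        · rw [if_pos h2]
          exact (hU_le G b X S u).trans le_self_add
        · rw [if_neg h2, zero_add]
          by_cases h3 : ∃ t ∈ T, G.edist t u ≤ 3
          · exact case1 u h1 h2 h3
          · rw [case2 u]
            · exact zero_le
            · rintro ⟨t, ht, h4⟩
              exact h3 ⟨t, ht, h4.trans (by norm_num)⟩
    have hsum : (∑ u, ((nbr G u ∩ S).card : ℝ≥0∞)) = D * S.card := by
      have := sum_nbr hG S
      exact_mod_cast this
    calc ∑ u, ex (walk G X u) (gU b X S)
        ≤ ∑ u, ((if u ∈ S then 1 else 0) + (if u ∈ dS then 1 else 0) +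
          ((nbr G u ∩ S).card : ℝ≥0∞) * (3 * (D : ℝ≥0∞)⁻¹)) :=
          Finset.sum_le_sum fun u _ => hall u
      _ = (S.card : ℝ≥0∞) + dS.card + (D * S.card) * (3 * (D : ℝ≥0∞)⁻¹) := by
          rw [Finset.sum_add_distrib, Finset.sum_add_distrib, ← Finset.sum_mul, hsum]
          simp
      _ ≤ (S.card : ℝ≥0∞) + 2 * S.card + 3 * S.card := by
          refine add_le_add (add_le_add le_rfl (by exact_mod_cast hdS)) ?_
          have hDne : (D : ℝ≥0∞) ≠ 0 := by exact_mod_cast hD0
          calc (D * S.card : ℝ≥0∞) * (3 * (D : ℝ≥0∞)⁻¹)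
              = 3 * S.card * (D * (D : ℝ≥0∞)⁻¹) := by ring
            _ = 3 * S.card := by
                rw [ENNReal.mul_inv_cancel hDne (ENNReal.natCast_ne_top D), mul_one]
            _ ≤ _ := le_rfl
      _ = 6 * S.card := by ring

end

end Helper76.LSA
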