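import Pool.Agent.Helper43_LSA.Stmts

/-!
# Module LOWR: the rate at which a set of vertices of load at most `k` is hit
-/

namespace Helper76.LSA

open Helper43.LSA Classical
open scoped ENNReal

noncomputable section

variable {V : Type} [Fintype V]

theorem rtg_mono {α : Type} {r p : α → α → Prop} (h : ∀ a b, r a b → p a b) {a b : α}
    (hab : Relation.ReflTransGen r a b) : Relation.ReflTransGen p a b := by
  induction hab with
  | refl => exact Relation.ReflTransGen.refl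
  | tail _ h2 ih => exact ih.tail (h _ _ h2)

theorem mem_Cl {G : SimpleGraph V} {k : ℕ} {X : V → ℕ} {A : Finset V} {w : V} :
    w ∈ Cl G k X A ↔ ∃ r ∈ A, X r < k ∧ Relation.ReflTransGen (fun a b => G.Adj a b ∧ X b < k) r w := by
  simp [Cl]

theorem lt_of_mem_Cl {G : SimpleGraph V} {k : ℕ} {X : V → ℕ} {A : Finset V} {w : V}
    (h : w ∈ Cl G k X A) : X w < k := by
  obtain ⟨r, _, h1, h2⟩ := mem_Cl.1 h
  cases h2 with
  | refl => exact h1
  | tail _ h3 => exact h3.2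

theorem Cl_step {G : SimpleGraph V} {k : ℕ} {X : V → ℕ} {A : Finset V} {v w : V}
    (h : v ∈ Cl G k X A) (hm : CanMove G X v) (hw : w ∈ lowNbr G X v) : w ∈ Cl G k X A := by
  obtain ⟨r, h1, h2, h3⟩ := mem_Cl.1 h
  exact mem_Cl.2 ⟨r, h1, h2, h3.tail ⟨(mem_lowNbr.1 hw).1,
    (lowNbr_lt hm hw).trans (lt_of_mem_Cl h)⟩⟩

theorem Cl_walk {G : SimpleGraph V} {k : ℕ} {X : V → ℕ} {A : Finset V} {v w : V}
    (h : v ∈ Cl G k X A) (hw : w ∈ (walk G X v).support) : w ∈ Cl G k X A :=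
  support_walk_subset (S := {x | x ∈ Cl G k X A}) (fun _ hx hm _ hz => Cl_step hx hm hz) h hw

theorem mem_Cl_of_mem {G : SimpleGraph V} {k : ℕ} {X : V → ℕ} {A : Finset V} {v : V}
    (h : v ∈ A) (hk : X v < k) : v ∈ Cl G k X A :=
  mem_Cl.2 ⟨v, h, hk, Relation.ReflTransGen.refl⟩

theorem mem_cns {G : SimpleGraph V} {A : Finset V} {w : V} :
    w ∈ cns G A ↔ ∃ v ∈ A, w ∈ cn G v := by simp [cns]

theorem good_of_mem {G : SimpleGraph V} {k : ℕ} {X : V → ℕ} {T : Finset V}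
    (hT : T ⊆ lowSet X k) {u w : V} (hu : u ∈ T) (hw : w ∈ (walk G X u).support) :
    (w ∈ T ∧ X w = k) ∨ w ∈ Cl G k X (cns G T) := by
  have hk : X u ≤ k := by
    have := hT hu
    simpa [lowSet] using this
  rcases hk.lt_or_eq with hlt | heq
  · right
    exact Cl_walk (mem_Cl_of_mem (mem_cns.2 ⟨u, hu, self_mem_cn G u⟩) hlt) hw
  · by_cases hm : CanMove G X u
    · obtain ⟨z, hz, hz2⟩ := (support_walk_move hm w).1 hw
      right
      refine Cl_walk (mem_Cl_of_mem (mem_cns.2 ⟨u, hu, mem_cn.2 (Or.inr (mem_lowNbr.1 hz).1)⟩) ?_) hz2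
      rw [← heq]
      exact lowNbr_lt hm hz
    · rw [walk_stay hm] at hw
      simp only [PMF.support_pure, Set.mem_singleton_iff] at hw
      subst hw
      exact Or.inl ⟨hu, heq⟩

theorem ex_good {G : SimpleGraph V} {k : ℕ} {X : V → ℕ} {T : Finset V}
    (hT : T ⊆ lowSet X k) {u : V} (hu : u ∈ T) :
    ex (walk G X u) (fun w => if (w ∈ T ∧ X w = k) ∨ w ∈ Cl G k X (cns G T) then 1 else 0) = 1 := by
  conv_rhs => rw [← ex_const (walk G X u) 1]
  exact ex_congr _ fun w hw => by rw [if_pos (good_of_mem hT hu hw)]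

theorem ofReal_div_nat (a b : ℕ) (hb : b ≠ 0) :
    ENNReal.ofReal ((a : ℝ) / (b : ℝ)) = (a : ℝ≥0∞) * (b : ℝ≥0∞)⁻¹ := by
  have hb' : (0 : ℝ) < b := by exact_mod_cast Nat.pos_of_ne_zero hb
  rw [ENNReal.ofReal_div_of_pos hb', ENNReal.ofReal_natCast, ENNReal.ofReal_natCast,
    div_eq_mul_inv]

theorem rate_out {G : SimpleGraph V} {k : ℕ} {X : V → ℕ} (hX : Smooth G X) {T : Finset V}
    (hT : T ⊆ lowSet X k) {u : V} (hu : u ∉ lowSet X k) :
    ENNReal.ofReal (((nbr G u ∩ T).card : ℝ) / ((nbr G u ∩ lowSet X k).card : ℝ)) ≤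
      ex (walk G X u)
        (fun w => if (w ∈ T ∧ X w = k) ∨ w ∈ Cl G k X (cns G T) then 1 else 0) := by
  rcases (nbr G u ∩ T).eq_empty_or_nonempty with h0 | ⟨t, ht⟩
  · rw [h0]; simp
  have hXu : k < X u := by simpa [lowSet] using hu
  rw [Finset.mem_inter, mem_nbr] at ht
  have hXt : X t ≤ k := by simpa [lowSet] using hT ht.2
  have h1 := hX u t ht.1
  have hXu' : X u = k + 1 := by omega
  have hm : CanMove G X u := ⟨t, ht.1, by omega⟩
  have hlow : lowNbr G X u = nbr G u ∩ lowSet X k := by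
    ext w
    rw [mem_lowNbr, Finset.mem_inter, mem_nbr]
    simp only [lowSet, Finset.mem_filter, Finset.mem_univ, true_and]
    constructor
    · rintro ⟨h2, h3⟩
      exact ⟨h2, (h3 t ht.1).trans hXt⟩
    · rintro ⟨h2, h3⟩
      refine ⟨h2, fun z hz => ?_⟩
      have := hX u z hz
      omega
  have hne : (nbr G u ∩ lowSet X k).card ≠ 0 := by
    rw [← hlow]
    exact (Finset.card_pos.2 (lowNbr_nonempty hm)).ne'
  rw [ofReal_div_nat _ _ hne, ex_walk_move hm, hlow]
  have hsub : nbr G u ∩ T ⊆ nbr G u ∩ lowSet X k := Finset.inter_subset_inter_left hT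
  calc ((nbr G u ∩ T).card : ℝ≥0∞) * ((nbr G u ∩ lowSet X k).card : ℝ≥0∞)⁻¹
      = ∑ w ∈ nbr G u ∩ T, ((nbr G u ∩ lowSet X k).card : ℝ≥0∞)⁻¹ * ex (walk G X w)
        (fun w => if (w ∈ T ∧ X w = k) ∨ w ∈ Cl G k X (cns G T) then 1 else 0) := by
        rw [← nsmul_eq_mul, ← Finset.sum_const]
        refine Finset.sum_congr rfl fun w hw => ?_
        rw [ex_good hT (Finset.mem_inter.1 hw).2, mul_one]
    _ ≤ _ := Finset.sum_le_sum_of_subset hsub

theorem Cl_bump_subset (G : SimpleGraph V) (k : ℕ) (X : V → ℕ) (A : Finset V) (w : V) :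
    Cl G k (bump X w) A ⊆ Cl G k X A := by
  intro v hv
  obtain ⟨r, h1, h2, h3⟩ := mem_Cl.1 hv
  refine mem_Cl.2 ⟨r, h1, lt_of_le_of_lt (le_bump X w r) h2, ?_⟩
  exact rtg_mono (fun a b h => ⟨h.1, lt_of_le_of_lt (le_bump X w b) h.2⟩) h3

theorem lowr : LowrStmt where
  rate_le := by
    intro V _ G k X hX T hT
    unfold rate
    rw [ENNReal.ofReal_add (Nat.cast_nonneg _) (Finset.sum_nonneg fun _ _ =>
      div_nonneg (Nat.cast_nonneg _) (Nat.cast_nonneg _)), ENNReal.ofReal_natCast,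
      ENNReal.ofReal_sum_of_nonneg fun _ _ => div_nonneg (Nat.cast_nonneg _) (Nat.cast_nonneg _)]
    have h1 : (T.card : ℝ≥0∞) = ∑ u ∈ T, ex (walk G X u)
        (fun w => if (w ∈ T ∧ X w = k) ∨ w ∈ Cl G k X (cns G T) then 1 else 0) := by
      rw [Finset.sum_congr rfl fun u hu => ex_good hT hu]
      simp
    have hd : Disjoint T (lowSet X k)ᶜ :=
      Finset.disjoint_left.2 fun u hu hu' => (Finset.mem_compl.1 hu') (hT hu)
    calc (T.card : ℝ≥0∞) + ∑ u ∈ (lowSet X k)ᶜ, ENNReal.ofReal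
          (((nbr G u ∩ T).card : ℝ) / ((nbr G u ∩ lowSet X k).card : ℝ))
        ≤ ∑ u ∈ T, ex (walk G X u)
            (fun w => if (w ∈ T ∧ X w = k) ∨ w ∈ Cl G k X (cns G T) then 1 else 0) +
          ∑ u ∈ (lowSet X k)ᶜ, ex (walk G X u)
            (fun w => if (w ∈ T ∧ X w = k) ∨ w ∈ Cl G k X (cns G T) then 1 else 0) :=
          add_le_add h1.le (Finset.sum_le_sum fun u hu => rate_out hX hT (Finset.mem_compl.1 hu))
      _ = ∑ u ∈ T ∪ (lowSet X k)ᶜ, ex (walk G X u)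
            (fun w => if (w ∈ T ∧ X w = k) ∨ w ∈ Cl G k X (cns G T) then 1 else 0) :=
          (Finset.sum_union hd).symm
      _ ≤ _ := Finset.sum_le_sum_of_subset (Finset.subset_univ _)
  mlow_bump := by
    intro V _ G k X A w
    unfold mlow
    calc ∑ v ∈ Cl G k (bump X w) A, (k - bump X w v)
        ≤ ∑ v ∈ Cl G k (bump X w) A, (k - X v) :=
          Finset.sum_le_sum fun v _ => Nat.sub_le_sub_left (le_bump X w v) k
      _ ≤ _ := Finset.sum_le_sum_of_subset (Cl_bump_subset G k X A w)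
  mlow_bump_good := by
    intro V _ G k X A w hw
    unfold mlow
    have h1 := lt_of_mem_Cl hw
    calc ∑ v ∈ Cl G k (bump X w) A, (k - bump X w v) + 1
        ≤ ∑ v ∈ Cl G k X A, (k - bump X w v) + 1 := by
          gcongr
          exact Cl_bump_subset G k X A w
      _ = (∑ v ∈ (Cl G k X A).erase w, (k - bump X w v)) + (k - bump X w w) + 1 := by
          rw [Finset.sum_erase_add _ _ hw]
      _ = (∑ v ∈ (Cl G k X A).erase w, (k - X v)) + (k - X w) := by
          rw [bump_self, add_assoc]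
          congr 1
          · refine Finset.sum_congr rfl fun v hv => ?_
            rw [bump_of_ne X (Finset.ne_of_mem_erase hv)]
          · omega
      _ = ∑ v ∈ Cl G k X A, (k - X v) := Finset.sum_erase_add _ _ hw
  mlow_mono := by
    intro V _ G k X A B hAB
    unfold mlow
    refine Finset.sum_le_sum_of_subset fun v hv => ?_
    obtain ⟨r, h1, h2⟩ := mem_Cl.1 hv
    exact mem_Cl.2 ⟨r, hAB h1, h2⟩

end

end Helper76.LSA
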